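import Pool.Statements.S02070
import Pool.Agent.L7h63.Onn.Padic

/-!
The conjectured uniform description fails for `N = 3`, `r = 2` because of the residue field with two
elements. For every odd prime `q` the group `GL₃ (ℤ_q / q²)` has a primitive irreducible
representation of dimension `q³ (q + 1) (q² + q + 1)` (attached to a diagonal matrix with distinct
entries modulo `q`), so this polynomial must be one of the `d_i`; its value at `q = 2` is
`168 = |GL₃ (𝔽₂)|`. But every irreducible representation of `GL₃ (ℤ₂ / 4)` has dimension at most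
`84`, since every `3 × 3` matrix over `𝔽₂` commutes with a non-identity invertible matrix.
-/

set_option autoImplicit false
open Pool Pool.MP_7ed69f_al

namespace Pool.Agent.S02070

open Pool.Agent.L7h63.Onn in
theorem result :
    ¬ (∀ N r : ℕ, 2 ≤ N → 2 ≤ r →
    ∃ P : Finset (Polynomial ℤ), (∀ d ∈ P, d.natDegree ≤ N.choose 2 * r) ∧
    ∀ (R : Type) [CommRing R] [IsDomain R] [IsDiscreteValuationRing R]
      [Finite (IsLocalRing.ResidueField R)]
      [IsAdicComplete (IsLocalRing.maximalIdeal R) R],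
    {z : ℤ | ∃ (V : Type) (_ : AddCommGroup V) (_ : Module ℂ V)
        (ρ : Representation ℂ
          (Matrix.GeneralLinearGroup (Fin N) (R ⧸ IsLocalRing.maximalIdeal R ^ r)) V),
        FiniteDimensional ℂ V ∧ Nontrivial V ∧
        (∀ W : Submodule ℂ V, (∀ g v, v ∈ W → ρ g v ∈ W) → W = ⊥ ∨ W = ⊤) ∧
        (∃ g : Matrix.GeneralLinearGroup (Fin N) (R ⧸ IsLocalRing.maximalIdeal R ^ r),
          (∀ i j, ∃ a ∈ IsLocalRing.maximalIdeal R ^ (r - 1),
            g.val i j
              - (1 : Matrix (Fin N) (Fin N) (R ⧸ IsLocalRing.maximalIdeal R ^ r)) i j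
              = Ideal.Quotient.mk (IsLocalRing.maximalIdeal R ^ r) a) ∧ ρ g ≠ 1) ∧
        (Module.finrank ℂ V : ℤ) = z}
    = (fun d : Polynomial ℤ => d.eval (Nat.card (IsLocalRing.ResidueField R) : ℤ)) ''
        (P : Set (Polynomial ℤ))) := by
  intro H
  obtain ⟨P, -, hP⟩ := H 3 2 (by norm_num) (by norm_num)
  have hev : ∀ p : {p : ℕ // p.Prime ∧ 3 ≤ p}, ∃ d ∈ P, d.eval ((p : ℕ) : ℤ) =
      DD.eval ((p : ℕ) : ℤ) := by
    rintro ⟨p, hp, hp3⟩
    have : Fact p.Prime := ⟨hp⟩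
    have h := hP ℤ_[p]
    have hmem := (Set.ext_iff.1 h (DD.eval (Nat.card (IsLocalRing.ResidueField ℤ_[p]) : ℤ))).1
      (padic_dim p hp3)
    obtain ⟨d, hd, hd'⟩ := hmem
    simp only [card_res] at hd'
    exact ⟨d, hd, hd'⟩
  choose f hfP hf using hev
  have hinf : Infinite {p : ℕ // p.Prime ∧ 3 ≤ p} := by
    rw [← Set.coe_ofPred, Set.infinite_coe_iff]
    have h1 : Set.Infinite {p : ℕ | p.Prime} := Nat.infinite_setOfPred_prime
    have h2 : {p : ℕ | p.Prime ∧ 3 ≤ p} = {p : ℕ | p.Prime} \ Set.Iio 3 := by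
      ext p
      simp
    rw [h2]
    exact h1.sdiff (Set.finite_Iio 3)
  obtain ⟨⟨d, hd⟩, hdinf⟩ := Finite.exists_infinite_fiber
    (fun p : {p : ℕ // p.Prime ∧ 3 ≤ p} => (⟨f p, hfP p⟩ : {d // d ∈ P}))
  have hD : d = DD := by
    apply Polynomial.eq_of_infinite_eval_eq
    have h3 := Set.infinite_coe_iff.1 hdinf
    have hinj : Function.Injective fun p : {p : ℕ // p.Prime ∧ 3 ≤ p} => ((p : ℕ) : ℤ) := by
      intro a b hab
      have hab' : ((a : ℕ) : ℤ) = ((b : ℕ) : ℤ) := hab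
      exact Subtype.ext (by exact_mod_cast hab')
    refine (h3.image hinj.injOn).mono ?_
    rintro _ ⟨p, hp, rfl⟩
    have hp' : f p = d := congrArg Subtype.val hp
    show d.eval ((p : ℕ) : ℤ) = DD.eval ((p : ℕ) : ℤ)
    rw [← hf p, hp']
  have h2 := hP ℤ_[2]
  have hmem := (Set.ext_iff.1 h2 (DD.eval (Nat.card (IsLocalRing.ResidueField ℤ_[2]) : ℤ))).2
    ⟨DD, hD ▸ hd, rfl⟩
  obtain ⟨V, i1, i2, ρ, h3, h4, h5, -, h6⟩ := hmem
  have h7 := padic_two ρ h5
  rw [card_res, eval_DD] at h6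
  norm_num at h6
  omega

end Pool.Agent.S02070
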