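import Pool.Statements.S02286

set_option autoImplicit false
open Pool Pool.MP_91b10e_al

namespace Pool.Agent.S02286

/-- The word `c x c⁻¹ x⁻¹`, whose solution set is the centraliser of `c`. -/
lemma lift_comm {G : Type} [Group G] (c x : G) :
    Monoid.Coprod.lift (MonoidHom.id G) (zpowersHom G x)
      (Monoid.Coprod.inl c * Monoid.Coprod.inr (Multiplicative.ofAdd 1) * Monoid.Coprod.inl c⁻¹ *
        Monoid.Coprod.inr (Multiplicative.ofAdd (-1))) = c * x * c⁻¹ * x⁻¹ := by
  simp [map_mul, Monoid.Coprod.lift_apply_inl, Monoid.Coprod.lift_apply_inr]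

/-- Word maps of a topological group are continuous. -/
lemma continuous_word {G : Type} [Group G] [TopologicalSpace G] [IsTopologicalGroup G]
    (w : Monoid.Coprod G (Multiplicative ℤ)) :
    Continuous fun x : G => Monoid.Coprod.lift (MonoidHom.id G) (zpowersHom G x) w := by
  induction w using Monoid.Coprod.induction_on with
  | inl g => simpa using continuous_const
  | inr n =>
    have : (fun x : G => Monoid.Coprod.lift (MonoidHom.id G) (zpowersHom G x)
        (Monoid.Coprod.inr n)) = fun x : G => x ^ (Multiplicative.toAdd n) := by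
      funext x; simp
    rw [this]
    exact continuous_zpow _
  | mul a b ha hb =>
    simp only [map_mul]
    exact ha.mul hb

/-- The Zariski topology of a group. -/
abbrev zariski (G : Type) [Group G] : TopologicalSpace G :=
  TopologicalSpace.generateFrom
    {U : Set G | ∃ w : Monoid.Coprod G (Multiplicative ℤ),
      U = {x : G | Monoid.Coprod.lift (MonoidHom.id G) (zpowersHom G x) w ≠ 1}}

/-- The Zariski topology of a group is coarser than every Hausdorff group topology. -/
lemma le_zariski (G : Type) [Group G] [t : TopologicalSpace G] [IsTopologicalGroup G] [T2Space G] :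
    t ≤ zariski G := by
  apply le_generateFrom
  rintro s ⟨w, rfl⟩
  exact isOpen_ne_fun (continuous_word w) continuous_const

/-- The Zariski topology of a compact Hausdorff group is compact. -/
lemma compact_zariski (G : Type) [Group G] [t : TopologicalSpace G] [IsTopologicalGroup G]
    [T2Space G] [CompactSpace G] : @IsCompact G (zariski G) Set.univ := by
  have h := @IsCompact.image G G t (zariski G) Set.univ id isCompact_univ
    (continuous_id_of_le (le_zariski G))
  rwa [Set.image_id] at h

/-- The group of all sequences of permutations of three points. -/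
abbrev P := Equiv.Perm (Fin 3)

instance : TopologicalSpace P := ⊥
instance : DiscreteTopology P := ⟨rfl⟩

lemma cd_ne : (Equiv.swap 0 1 : P) * Equiv.swap 1 2 ≠ Equiv.swap 1 2 * Equiv.swap 0 1 := by decide

/-- The sequence with entry `c` in place `n` and trivial entries elsewhere. -/
def at_ (c : P) (n : ℕ) : ℕ → P := Function.update (fun _ => 1) n c

/-- The complement of the centraliser of the sequence with entry `(0 1)` in place `n`. -/
def U (n : ℕ) : Set (ℕ → P) :=
  {x | at_ (Equiv.swap 0 1) n * x * (at_ (Equiv.swap 0 1) n)⁻¹ * x⁻¹ ≠ 1}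

lemma mem_U (n m : ℕ) : at_ (Equiv.swap 1 2) m ∈ U n ↔ m = n := by
  change at_ (Equiv.swap 0 1) n * at_ (Equiv.swap 1 2) m * (at_ (Equiv.swap 0 1) n)⁻¹ *
    (at_ (Equiv.swap 1 2) m)⁻¹ ≠ 1 ↔ m = n
  constructor
  · intro h
    by_contra hmn
    apply h
    funext k
    simp only [Pi.mul_apply, Pi.inv_apply, Pi.one_apply]
    by_cases hk : k = n
    · subst hk
      have : at_ (Equiv.swap 1 2) m k = 1 := Function.update_of_ne (fun h => hmn h.symm) _ _
      rw [this]; simp
    · have : at_ (Equiv.swap 0 1) n k = 1 := Function.update_of_ne hk _ _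
      rw [this]; simp
  · rintro rfl h
    have h1 : ∀ c : P, at_ c m m = c := fun c => Function.update_self _ _ _
    have h2 := congrFun h m
    simp only [Pi.mul_apply, Pi.inv_apply, Pi.one_apply, h1] at h2
    apply cd_ne
    rw [mul_assoc _ _ (Equiv.swap 1 2)⁻¹, ← mul_inv_rev] at h2
    exact mul_inv_eq_one.1 h2

/-- The negation of the preceding statement: For every group G, if the Zariski topology (closed subbasis: solution sets of one-variable equations with constants from G) is compact, then it is Noetherian. -/
theorem result :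
    ¬ (∀ (G : Type) [Group G],
      @IsCompact G
        (TopologicalSpace.generateFrom
          {U : Set G | ∃ w : Monoid.Coprod G (Multiplicative ℤ),
            U = {x : G | Monoid.Coprod.lift (MonoidHom.id G) (zpowersHom G x) w ≠ 1}})
        Set.univ →
      @TopologicalSpace.NoetherianSpace G
        (TopologicalSpace.generateFrom
          {U : Set G | ∃ w : Monoid.Coprod G (Multiplicative ℤ),
            U = {x : G | Monoid.Coprod.lift (MonoidHom.id G) (zpowersHom G x) w ≠ 1}})) := by
  intro H
  have hN : @TopologicalSpace.NoetherianSpace (ℕ → P) (zariski (ℕ → P)) :=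
    H (ℕ → P) (compact_zariski (ℕ → P))
  have hU : ∀ n, @IsOpen (ℕ → P) (zariski (ℕ → P)) (U n) := by
    intro n
    apply TopologicalSpace.isOpen_generateFrom_of_mem
    refine ⟨Monoid.Coprod.inl (at_ (Equiv.swap 0 1) n) *
      Monoid.Coprod.inr (Multiplicative.ofAdd 1) * Monoid.Coprod.inl (at_ (Equiv.swap 0 1) n)⁻¹ *
        Monoid.Coprod.inr (Multiplicative.ofAdd (-1)), ?_⟩
    ext x
    change _ ≠ _ ↔ _ ≠ _
    rw [lift_comm]
  have hK : @IsCompact (ℕ → P) (zariski (ℕ → P)) (⋃ n, U n) :=
    @TopologicalSpace.NoetherianSpace.isCompact (ℕ → P) (zariski (ℕ → P)) hN _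
  obtain ⟨t, ht⟩ := @IsCompact.elim_finite_subcover (ℕ → P) (zariski (ℕ → P)) _ ℕ hK U hU
    subset_rfl
  obtain ⟨m, hm⟩ := Infinite.exists_notMem_finset t
  have h1 : at_ (Equiv.swap 1 2) m ∈ ⋃ n, U n := Set.mem_iUnion.2 ⟨m, (mem_U m m).2 rfl⟩
  have h2 := ht h1
  simp only [Set.mem_iUnion] at h2
  obtain ⟨n, hn, hmn⟩ := h2
  rw [mem_U] at hmn
  exact hm (hmn ▸ hn)

end Pool.Agent.S02286
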