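import Pool.Statements.S02592
-- import your own Pool.Agent.* helpers here
import Pool.Agent.S02725

set_option autoImplicit false
open Pool Pool.MP_a5fc06_al

namespace Pool.Agent.S02592

/-- Malcev: a surjective endomorphism of a residually finite group generated by the image of a
finite set is injective. -/
theorem malcev {G : Type} [Group G] {n : ℕ} (x : Fin n → G)
    (hx : ∀ (Q : Type) [Group Q] (a b : G →* Q), (∀ i, a (x i) = b (x i)) → a = b)
    (hrf : ∀ g : G, g ≠ 1 → ∃ H : Subgroup G, H.index ≠ 0 ∧ g ∉ H)
    (f : G →* G) (hf : Function.Surjective f) : Function.Injective f := by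
  rw [injective_iff_map_eq_one]
  intro g hg
  by_contra hne
  obtain ⟨H, hH, hgH⟩ := hrf g hne
  haveI : H.FiniteIndex := ⟨hH⟩
  haveI : Finite (G ⧸ H.normalCore) := inferInstance
  let N := H.normalCore
  -- finitely many homomorphisms
  haveI : Finite (G →* (G ⧸ H.normalCore)) := by
    apply Finite.of_injective (fun (a : G →* (G ⧸ H.normalCore)) => fun i => a (x i))
    intro a b hab
    exact hx _ a b (fun i => congrFun hab i)
  let T : (G →* (G ⧸ H.normalCore)) → (G →* (G ⧸ H.normalCore)) := fun a => a.comp f
  have hT : Function.Injective T := by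
    intro a b hab
    ext y
    obtain ⟨z, rfl⟩ := hf y
    exact DFunLike.congr_fun hab z
  have hTs : Function.Surjective T := Finite.surjective_of_injective hT
  obtain ⟨ψ, hψ⟩ := hTs (QuotientGroup.mk' H.normalCore)
  have h1 : QuotientGroup.mk' H.normalCore g = 1 := by
    rw [← hψ]
    change ψ (f g) = 1
    rw [hg, map_one]
  have h2 : g ∈ H.normalCore := (QuotientGroup.eq_one_iff g).1 h1
  exact hgH (H.normalCore_le h2)

/-- The negation of the preceding statement: For every set of group laws and every rank, if the relatively free group (free group modulo the verbal subgroup of those laws) is soluble, then every nontrivial element avoids some finite-index subgroup, i.e. the group is residually finite. -/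
theorem result :
    ¬ (∀ (W : Set (FreeGroup ℕ)) (α : Type),
      IsSolvable (FreeGroup α ⧸ Subgroup.normalClosure
        {x : FreeGroup α | ∃ w ∈ W, ∃ φ : FreeGroup ℕ →* FreeGroup α, φ w = x}) →
      ∀ g : FreeGroup α ⧸ Subgroup.normalClosure
          {x : FreeGroup α | ∃ w ∈ W, ∃ φ : FreeGroup ℕ →* FreeGroup α, φ w = x},
        g ≠ 1 →
          ∃ H : Subgroup (FreeGroup α ⧸ Subgroup.normalClosure
              {x : FreeGroup α | ∃ w ∈ W, ∃ φ : FreeGroup ℕ →* FreeGroup α, φ w = x}),
            H.index ≠ 0 ∧ g ∉ H) := by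
  intro hall
  obtain ⟨L, d, hsol, n, f, hf, hnf⟩ := Pool.Agent.S02725.result
  apply hnf
  have hS : derivedSeries (FreeGroup (Fin n) ⧸ Subgroup.normalClosure
      {x : FreeGroup (Fin n) | ∃ w ∈ L, ∃ φ : FreeGroup ℕ →* FreeGroup (Fin n), φ w = x}) d = ⊥ := by
    apply hsol
    intro w hw φ
    have hlift : ∀ k : ℕ, ∃ y : FreeGroup (Fin n), QuotientGroup.mk' (Subgroup.normalClosure
        {x : FreeGroup (Fin n) | ∃ w ∈ L, ∃ φ : FreeGroup ℕ →* FreeGroup (Fin n), φ w = x}) y
          = φ (FreeGroup.of k) := fun k => QuotientGroup.mk'_surjective _ _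
    choose y hy using hlift
    have e : (QuotientGroup.mk' (Subgroup.normalClosure
        {x : FreeGroup (Fin n) | ∃ w ∈ L, ∃ φ : FreeGroup ℕ →* FreeGroup (Fin n), φ w = x})).comp
          (FreeGroup.lift y) = φ := by
      apply FreeGroup.ext_hom
      intro k
      rw [MonoidHom.comp_apply, FreeGroup.lift_apply_of, hy]
    rw [← e, MonoidHom.comp_apply]
    apply (QuotientGroup.eq_one_iff _).2
    exact Subgroup.subset_normalClosure ⟨w, hw, FreeGroup.lift y, rfl⟩
  refine malcev (fun i : Fin n => QuotientGroup.mk (FreeGroup.of i)) ?_ ?_ f hf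
  · intro Q _ a b hab
    apply QuotientGroup.monoidHom_ext
    apply FreeGroup.ext_hom
    intro i
    exact hab i
  · exact hall L (Fin n) ⟨⟨d, hS⟩⟩

end Pool.Agent.S02592
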