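import Pool.Statements.S02616
import Pool.Agent.L7h59.M3.PathComp
import Pool.Agent.L7h59.M3.Grp2
import Pool.Agent.L7h59.M3.Tor

set_option autoImplicit false
open Pool Pool.MP_a8e993_al

namespace Pool.Agent.S02616

open Pool.Agent.L7h59.M3 Pool.Agent.L7h59.M3.Grp

theorem not_geometric : ¬ ∃ (M : Type) (_ : TopologicalSpace M) (_ : T2Space M) (_ : CompactSpace M)
    (_ : ChartedSpace (EuclideanHalfSpace 3) M) (x : M),
    Nonempty (FundamentalGroup M x ≃* GG) := by
  rintro ⟨M, i1, i2, i3, i4, x, ⟨e⟩⟩
  obtain ⟨M', j1, j2, j3, j4, j5, x', ⟨L⟩⟩ := exists_comp x e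
  refine no_manifold L presG big fG ?_ (Ag 0) p_A0 presN big' ?_
  · exact p_T
  · rw [Fintype.card_fin, Fintype.card_fin]
    norm_num

theorem tt_sq_center : tt * tt ∈ Subgroup.center GG := by
  rw [Subgroup.mem_center_iff]
  intro g
  have h1 : ∀ x : F5, tt * tt * li x = li x * (tt * tt) := by
    intro x
    rw [mul_assoc, tt_mul, ← mul_assoc, tt_mul, ph_ph_apply, mul_assoc]
  have h2 : (SemidirectProduct.inr g.right : GG) = tt ^ (Multiplicative.toAdd g.right) := by
    rw [tt, ← map_zpow]
    congr 1
    apply Multiplicative.toAdd.injective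
    simp
  rw [← SemidirectProduct.inl_left_mul_inr_right g, h2]
  have h3 : Commute (tt * tt) (li g.left) := h1 _
  have h4 : Commute (tt * tt) (tt ^ (Multiplicative.toAdd g.right)) :=
    ((Commute.refl tt).mul_left (Commute.refl tt)).zpow_right _
  exact (h3.mul_right h4).symm.eq

/-- The negation of the preceding statement: Take a group G that is (finitely generated free)-by-ℤ and not the fundamental group of any compact 3-manifold. Then every finitely generated abelian group A is a direct summand of the abelianisation of some finite-index subgroup of G. -/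
theorem result :
    ¬ (∀ (G : Type) [Group G] (N : Subgroup G) [N.Normal] (n : ℕ),
      Nonempty (↥N ≃* FreeGroup (Fin n)) →
      Nonempty (G ⧸ N ≃* Multiplicative ℤ) →
      (¬ ∃ (M : Type) (_ : TopologicalSpace M) (_ : T2Space M) (_ : CompactSpace M)
          (_ : ChartedSpace (EuclideanHalfSpace 3) M) (x : M),
          Nonempty (FundamentalGroup M x ≃* G)) →
      ∀ (A : Type) [AddCommGroup A] [AddGroup.FG A],
        ∃ (H : Subgroup G), H.FiniteIndex ∧
          ∃ (B : Type) (_ : AddCommGroup B),
            Nonempty (Additive (Abelianization ↥H) ≃+ A × B)) := by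
  intro hall
  let f : GG →* Multiplicative ℤ := SemidirectProduct.rightHom
  have eN : F5 ≃* ↥f.ker :=
    (MonoidHom.ofInjective (SemidirectProduct.inl_injective (φ := th))).trans
      (MulEquiv.subgroupCongr SemidirectProduct.range_inl_eq_ker_rightHom)
  obtain ⟨H, -, B, i, hB⟩ := hall GG f.ker 5 ⟨eN.symm⟩
    ⟨QuotientGroup.quotientKerEquivOfSurjective f SemidirectProduct.rightHom_surjective⟩
    not_geometric (ZMod 3)
  have hfree : IsFreeGroup f.ker := IsFreeGroup.ofMulEquiv eN
  have hft : f (tt * tt) = Multiplicative.ofAdd ((2 : ℕ) : ℤ) := rfl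
  exact Tor.no_summand 2 (fun x k hk hx =>
    Tor.torsion_killed f hfree (tt * tt) tt_sq_center 2 (by norm_num) hft H x k hk hx) 3
    (by norm_num) (by norm_num) B hB

end Pool.Agent.S02616
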