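import Pool.Statements.S03148
import Pool.Agent.L7h64.CoreFin

set_option autoImplicit false
open CategoryTheory CategoryTheory.MonoidalCategory CategoryTheory.Limits
open Pool Pool.MP_d25222_al

namespace Pool.Agent.S03148

/-- The negation of the preceding statement: Take a finite group G, a field k of prime characteristic, and a finite-dimensional kG-module M. Let c_n be the dimension of the non-projective part of the n-th tensor power of M. Then the series sum c_n t^n is a rational function: a nonzero polynomial times it is a polynomial.

Proof: `G` is the four-group, `k` the field with two elements and `M = Ω k ⊕ Ω⁻¹ k`. -/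
theorem result :
    ¬ (∀ (p : ℕ) (k : Type) [Field k] [CharP k p], p.Prime →
      ∀ (G : Type) [Group G] [Finite G] (M : Rep k G), FiniteDimensional k M.V →
        ∃ P Q : Polynomial ℚ, Q ≠ 0 ∧
          (Q : PowerSeries ℚ) *
              PowerSeries.mk (fun n : ℕ =>
                ((sInf {d : ℕ | ∃ N P' : Rep k G, Projective P' ∧
                    Nonempty ((fun X : Rep k G => X ⊗ M)^[n] (𝟙_ (Rep k G)) ≅ N ⊞ P') ∧
                    Module.finrank k N.V = d} : ℕ) : ℚ)) =
            (P : PowerSeries ℚ)) := by
  intro h
  have h1 := h 2 (ZMod 2) Nat.prime_two L7h64.Core.G4 L7h64.Core.MM inferInstance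
  exact L7h64.CoreSeries.not_rational' (fun n => sInf (L7h64.Core.dims (L7h64.Core.it n (𝟙_ _))))
    L7h64.Core.core_dim h1

end Pool.Agent.S03148
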