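import Pool.Statements.S03154
import Pool.Agent.L7h64.FARing
import Pool.Agent.L7h64.FAMat
-- import your own Pool.Agent.* helpers here

set_option autoImplicit false
open Pool Pool.MP_d2e081_al

namespace Pool.Agent.S03154

open Pool.Agent.L7h64.FA

/-- hypothesis (a): normal subgroups of finite index extend -/
lemma cond_a (N : Subgroup (St PS)) (hN : N.Normal) (hi : N.index ≠ 0) :
    ∃ M : Subgroup (St RR), M.Normal ∧ M.index ≠ 0 ∧ M.comap (phi io) ≤ N := by
  have : N.FiniteIndex := ⟨hi⟩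
  have : Finite (St PS ⧸ N) := Subgroup.finite_quotient_of_finiteIndex
  obtain ⟨q, hq⟩ := extend io_dense (QuotientGroup.mk' N)
  refine ⟨q.ker, inferInstance, ?_, ?_⟩
  · rw [Subgroup.index_ker]
    exact Nat.card_pos.ne'
  · intro g hg
    rw [Subgroup.mem_comap, MonoidHom.mem_ker] at hg
    have h1 : (q.comp (phi io)) g = 1 := hg
    rw [hq] at h1
    exact (QuotientGroup.eq_one_iff g).1 h1

/-- hypothesis (b): density -/
lemma cond_b (M : Subgroup (St RR)) (hM : M.Normal) (hi : M.index ≠ 0) (h : St RR) :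
    ∃ g : St PS, ∃ m ∈ M, h = phi io g * m := by
  have : M.FiniteIndex := ⟨hi⟩
  have : Finite (St RR ⧸ M) := Subgroup.finite_quotient_of_finiteIndex
  have hs := dense_range io_dense (QuotientGroup.mk' M) (QuotientGroup.mk'_surjective M)
  obtain ⟨g, hg⟩ := hs (QuotientGroup.mk' M h)
  refine ⟨g, (phi io g)⁻¹ * h, ?_, by group⟩
  exact QuotientGroup.eq.1 hg

/-- matrices over `R` are detected modulo the ideals `fR` -/
lemma core_le_ker : core (St RR) ≤ (mu RR).ker := by
  intro g hg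
  rw [MonoidHom.mem_ker]
  apply Units.ext
  rw [Units.val_one]
  refine Matrix.ext fun i j => ?_
  by_contra hne
  have hne' : ((mu RR g : GLL RR) : Matrix (ZMod 3) (ZMod 3) RR) i j -
      (1 : Matrix (ZMod 3) (ZMod 3) RR) i j ≠ 0 := sub_ne_zero.2 hne
  obtain ⟨f, hf, hnot⟩ := io_res _ hne'
  have hfin := io_finite f hf
  let π : RR →+* RR ⧸ Ideal.span {io f} := Ideal.Quotient.mk _
  let ν : St RR →* GLL (RR ⧸ Ideal.span {io f}) := (Units.map π.mapMatrix.toMonoidHom).comp (mu RR)
  have : Finite (GLL (RR ⧸ Ideal.span {io f})) := inferInstance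
  have h1 : ν.ker.index ≠ 0 := by
    rw [Subgroup.index_ker]
    exact Nat.card_pos.ne'
  have h2 : g ∈ ν.ker := (mem_core g).1 hg _ inferInstance h1
  rw [MonoidHom.mem_ker] at h2
  have h3 : (ν g : Matrix (ZMod 3) (ZMod 3) (RR ⧸ Ideal.span {io f})) i j =
      (1 : Matrix (ZMod 3) (ZMod 3) (RR ⧸ Ideal.span {io f})) i j := by
    rw [h2, Units.val_one]
  have h4 : (ν g : Matrix (ZMod 3) (ZMod 3) (RR ⧸ Ideal.span {io f})) i j =
      π (((mu RR g : GLL RR) : Matrix (ZMod 3) (ZMod 3) RR) i j) := rfl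
  have h5 : (1 : Matrix (ZMod 3) (ZMod 3) (RR ⧸ Ideal.span {io f})) i j =
      π ((1 : Matrix (ZMod 3) (ZMod 3) RR) i j) := by
    rw [Matrix.one_apply, Matrix.one_apply]
    split_ifs
    · exact (map_one π).symm
    · exact (map_zero π).symm
  rw [h4, h5] at h3
  exact hnot (Ideal.Quotient.eq.1 h3)

/-- the matrix representation of `H` -/
noncomputable def muH : RF (St RR) →* GLL RR := QuotientGroup.lift _ (mu RR) core_le_ker

lemma muH_mk (g : St RR) : muH (QuotientGroup.mk' _ g) = mu RR g := rfl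

/-- the chain in `H` -/
noncomputable def DD (n : ℕ) : Subgroup (RF (St RR)) := (GLsub (Rn n)).comap muH

lemma DD_mono : Monotone DD := fun _ _ h => Subgroup.comap_mono (GLsub_mono (Rn_mono h))

lemma DD_union (h : RF (St RR)) : ∃ n, h ∈ DD n := GLsub_union Rn Rn_mono Rn_union (muH h)

lemma DD_ne (n : ℕ) : DD n ≠ ⊤ := by
  intro h
  obtain ⟨r, hr⟩ := Rn_ne_top n
  have h1 : QuotientGroup.mk' _ (St.x 0 r) ∈ DD n := by rw [h]; trivial
  have h2 := h1.1 0 1
  rw [muH_mk, mu_x_entry] at h2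
  exact hr h2

/-- The negation of the preceding statement: For residually finite groups G, H and injective u: G→H inducing an isomorphism of profinite completions (given via finite-index normal subgroups), if every inversion-free action of G on a tree has a fixed vertex, the same holds for H. -/
theorem result :
    ¬ (∀ (G H : Type) [Group G] [Group H] (u : G →* H),
      (∀ g : G, g ≠ 1 → ∃ N : Subgroup G, N.Normal ∧ N.index ≠ 0 ∧ g ∉ N) →
      (∀ h : H, h ≠ 1 → ∃ M : Subgroup H, M.Normal ∧ M.index ≠ 0 ∧ h ∉ M) →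
      Function.Injective u →
      (∀ N : Subgroup G, N.Normal → N.index ≠ 0 →
        ∃ M : Subgroup H, M.Normal ∧ M.index ≠ 0 ∧ M.comap u ≤ N) →
      (∀ M : Subgroup H, M.Normal → M.index ≠ 0 →
        ∀ h : H, ∃ g : G, ∃ m ∈ M, h = u g * m) →
      (∀ (V : Type) [MulAction G V] (T : SimpleGraph V), T.IsTree →
        (∀ g : G, ∀ x y : V, T.Adj x y → T.Adj (g • x) (g • y)) →
        (∀ g : G, ∀ x y : V, T.Adj x y → ¬ (g • x = y ∧ g • y = x)) →
        ∃ v : V, ∀ g : G, g • v = v) →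
      (∀ (V : Type) [MulAction H V] (T : SimpleGraph V), T.IsTree →
        (∀ h : H, ∀ x y : V, T.Adj x y → T.Adj (h • x) (h • y)) →
        (∀ h : H, ∀ x y : V, T.Adj x y → ¬ (h • x = y ∧ h • y = x)) →
        ∃ v : V, ∀ h : H, h • v = v)) := by
  intro main
  obtain ⟨V, inst, T, hT, hadj, hinv, hno⟩ := no_fix_union DD DD_mono DD_union DD_ne
  refine hno (main (RF (St PS)) (RF (St RR)) (uu (phi io)) RF_rf RF_rf (uu_inj cond_a)
    (uu_a cond_a) (uu_b cond_b) ?_ V T hT hadj hinv)
  intro W instW T' hT' hadj' hinv'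
  let _ : MulAction (St PS) W := MulAction.compHom W (QuotientGroup.mk' (core (St PS)))
  obtain ⟨v, hv⟩ := fa_St W T' hT' (fun g x y h => hadj' (QuotientGroup.mk' _ g) x y h)
    (fun g x y h => hinv' (QuotientGroup.mk' _ g) x y h)
  refine ⟨v, fun g => ?_⟩
  obtain ⟨γ, rfl⟩ := QuotientGroup.mk'_surjective _ g
  exact hv γ

end Pool.Agent.S03154
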