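import Pool.Statements.S05418
import Pool.Agent.L7lead.LA.End
import Pool.Agent.L7h12.LA.NulSet
import Pool.Agent.L7h15.LA.FIX
import Pool.Agent.L7h15.LA.VWK
import Pool.Agent.L7h21.LA.Ker
import Pool.Agent.L7h50.LA.Nt1
import Pool.Agent.L7h50.LA.Thi
import Pool.Agent.L7h56.LA.Lpd
import Pool.Agent.L7h56.LA.Nt2
import Pool.Agent.L7h56.LA.Sum
import Pool.Agent.L7h60.LA.Ce1
import Pool.Agent.L7h60.LA.Ce2
import Pool.Agent.L7h65.LA.Bum
import Pool.Agent.L7h65.LA.Cez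
import Pool.Agent.L7h65.LA.Cir
import Pool.Agent.L7h65.LA.Gre

set_option autoImplicit false
open MeasureTheory
open Pool Pool.MP_92d530_an

namespace Pool.Agent.S05418

/-- The negation of the preceding statement: In every dimension d≥1 and for every bound M, there is C>0 such that any real weak solution of −Δu+Vu=0 with real ∣V∣≤M and ∣u(x)∣≤e^{−C∣x∣} vanishes almost everywhere. -/
theorem result :
    ¬ (∀ d : ℕ, 1 ≤ d → ∀ M : ℝ, 0 < M → ∃ C : ℝ, 0 < C ∧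
      ∀ V u : EuclideanSpace ℝ (Fin d) → ℝ, Measurable V → Measurable u →
        (∀ x, |V x| ≤ M) →
        (∀ x, |u x| ≤ Real.exp (-(C * ‖x‖))) →
        (∀ φ : EuclideanSpace ℝ (Fin d) → ℝ, ContDiff ℝ 2 φ → HasCompactSupport φ →
          ∫ x, (-(u x * ∑ i : Fin d,
                  iteratedFDeriv ℝ 2 φ x (fun _ => EuclideanSpace.single i (1 : ℝ)))
                + V x * u x * φ x) = 0) →
        ∀ᵐ x ∂(volume : Measure (EuclideanSpace ℝ (Fin d))), u x = 0) := by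
  exact L7lead.LA.final (L7lead.LA.t_FIN L7h21.LA.t_KER' L7h65.LA.t_BUM L7h56.LA.t_IBP
    (L7h60.LA.t_CE1 L7h56.LA.t_LPD) L7h65.LA.t_CEZ L7h60.LA.t_CE2 L7h56.LA.t_SUM
    (L7h65.LA.t_GRE L7h65.LA.t_CIR)
    (L7h50.LA.t_NT1 (L7h50.LA.t_THI L7h12.LA.t_NUL))
    L7h56.LA.t_NT2 L7h15.LA.t_FIX L7h15.LA.t_VWK)

end Pool.Agent.S05418
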