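import Pool.Statements.S05718
import Pool.Agent.L7h55.FS.Lim

set_option autoImplicit false
open MeasureTheory Filter Topology
open Pool Pool.MP_a70d84_an

namespace Pool.Agent.S05718

open Pool.Agent.L7h55.FS

/-- The negation of the preceding statement: On ℓ²(ℕ), a finite-section sequence has the form P_nKP_n+W_nK'W_n+C_n (K,K' compact, ‖C_n‖→0) iff it lies in the closed algebra generated by P_nT(a)P_n, a∈L^∞, and both s-lim A_n and s-lim W_nA_nW_n are compact. -/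
theorem result :
    ¬ (∀ (P W : ℕ → (lp (fun _ : ℕ => ℂ) 2 →L[ℂ] lp (fun _ : ℕ => ℂ) 2)),
    (∀ (n : ℕ) (x : lp (fun _ : ℕ => ℂ) 2) (j : ℕ), (P n x) j = if j ≤ n then x j else 0) →
    (∀ (n : ℕ) (x : lp (fun _ : ℕ => ℂ) 2) (j : ℕ), (W n x) j = if j ≤ n then x (n - j) else 0) →
    ∀ A : ℕ → (lp (fun _ : ℕ => ℂ) 2 →L[ℂ] lp (fun _ : ℕ => ℂ) 2),
      (∃ K K' : lp (fun _ : ℕ => ℂ) 2 →L[ℂ] lp (fun _ : ℕ => ℂ) 2,
        IsCompactOperator K ∧ IsCompactOperator K' ∧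
        ∃ C : ℕ → (lp (fun _ : ℕ => ℂ) 2 →L[ℂ] lp (fun _ : ℕ => ℂ) 2),
          (∀ n, C n = P n * C n * P n) ∧
          Tendsto (fun n => ‖C n‖) atTop (𝓝 0) ∧
          ∀ n, A n = P n * K * P n + W n * K' * W n + C n)
      ↔
      ((∀ ε : ℝ, 0 < ε →
          ∃ B ∈ NonUnitalAlgebra.adjoin ℂ
            {G : ℕ → (lp (fun _ : ℕ => ℂ) 2 →L[ℂ] lp (fun _ : ℕ => ℂ) 2) |
              ∃ a : Lp ℂ ⊤ (volume : Measure (AddCircle (1 : ℝ))),
              ∃ T : lp (fun _ : ℕ => ℂ) 2 →L[ℂ] lp (fun _ : ℕ => ℂ) 2,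
                (∀ j k : ℕ, (T (lp.single 2 k (1 : ℂ) : lp (fun _ : ℕ => ℂ) 2)) j
                    = fourierCoeff (⇑a : AddCircle (1 : ℝ) → ℂ) ((j : ℤ) - (k : ℤ))) ∧
                ∀ n, G n = P n * T * P n},
            ∀ n, ‖A n - B n‖ ≤ ε) ∧
       (∃ K : lp (fun _ : ℕ => ℂ) 2 →L[ℂ] lp (fun _ : ℕ => ℂ) 2,
          IsCompactOperator K ∧ ∀ x, Tendsto (fun n => A n x) atTop (𝓝 (K x))) ∧
       (∃ K : lp (fun _ : ℕ => ℂ) 2 →L[ℂ] lp (fun _ : ℕ => ℂ) 2,
          IsCompactOperator K ∧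
          ∀ x, Tendsto (fun n => (W n * A n * W n) x) atTop (𝓝 (K x))))) := by
  intro hall
  obtain ⟨P, hP⟩ := exists_P
  obtain ⟨W, hW⟩ := exists_W
  have h := (hall P W hP hW (Z P)).mpr ⟨?_, ?_, ?_⟩
  · obtain ⟨K, K', hK, hK', C, _, hC, hZ⟩ := h
    exact not_tendsto hP hW (ideal_null hP hW (tendsto_Z hP) (tendsto_WZW hP hW) hK hK' hC hZ)
  · intro ε hε
    refine ⟨Z P, ?_, fun n => by rw [sub_self, norm_zero]; exact hε.le⟩
    have hone : (fun n => P n) ∈ NonUnitalAlgebra.adjoin ℂ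
            {G : ℕ → (lp (fun _ : ℕ => ℂ) 2 →L[ℂ] lp (fun _ : ℕ => ℂ) 2) |
              ∃ a : Lp ℂ ⊤ (volume : Measure (AddCircle (1 : ℝ))),
              ∃ T : lp (fun _ : ℕ => ℂ) 2 →L[ℂ] lp (fun _ : ℕ => ℂ) 2,
                (∀ j k : ℕ, (T (lp.single 2 k (1 : ℂ) : lp (fun _ : ℕ => ℂ) 2)) j
                    = fourierCoeff (⇑a : AddCircle (1 : ℝ) → ℂ) ((j : ℤ) - (k : ℤ))) ∧
                ∀ n, G n = P n * T * P n} := by
      apply NonUnitalAlgebra.subset_adjoin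
      refine ⟨(memLp_top (f := fun _ => (1 : ℂ)) measurable_const (fun _ => by simp)).toLp _, 1,
        ?_, ?_⟩
      · intro j k
        rw [fourierCoeff_toLp_top measurable_const (fun _ => by simp)]
        have h1 : (fun _ : AddCircle (1 : ℝ) => (1 : ℂ)) = ⇑(fourier (T := (1 : ℝ)) 0) := by
          funext t; simp
        rw [h1, fourierCoeff_fourier]
        change (e k) j = _
        rw [e_apply]
        by_cases hjk : j = k
        · subst hjk; simp
        · rw [if_neg hjk, Pi.single_eq_of_ne]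
          omega
      · intro n
        ext1 x
        simp only [mul_one, mul_apply_eq_comp]
        rw [P_P hP]
    have hA : A P ∈ NonUnitalAlgebra.adjoin ℂ
            {G : ℕ → (lp (fun _ : ℕ => ℂ) 2 →L[ℂ] lp (fun _ : ℕ => ℂ) 2) |
              ∃ a : Lp ℂ ⊤ (volume : Measure (AddCircle (1 : ℝ))),
              ∃ T : lp (fun _ : ℕ => ℂ) 2 →L[ℂ] lp (fun _ : ℕ => ℂ) 2,
                (∀ j k : ℕ, (T (lp.single 2 k (1 : ℂ) : lp (fun _ : ℕ => ℂ) 2)) j
                    = fourierCoeff (⇑a : AddCircle (1 : ℝ) → ℂ) ((j : ℤ) - (k : ℤ))) ∧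
                ∀ n, G n = P n * T * P n} := by
      apply NonUnitalAlgebra.subset_adjoin
      refine ⟨(memLp_top measurable_bdry (fun t => (norm_bdry t).le)).toLp _, T, ?_, fun n => rfl⟩
      intro j k
      rw [fourierCoeff_toLp_top measurable_bdry (fun t => (norm_bdry t).le)]
      change (T (e k)) j = _
      rw [T_e, v_apply, s]
    have hA' : A' P ∈ NonUnitalAlgebra.adjoin ℂ
            {G : ℕ → (lp (fun _ : ℕ => ℂ) 2 →L[ℂ] lp (fun _ : ℕ => ℂ) 2) |
              ∃ a : Lp ℂ ⊤ (volume : Measure (AddCircle (1 : ℝ))),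
              ∃ T : lp (fun _ : ℕ => ℂ) 2 →L[ℂ] lp (fun _ : ℕ => ℂ) 2,
                (∀ j k : ℕ, (T (lp.single 2 k (1 : ℂ) : lp (fun _ : ℕ => ℂ) 2)) j
                    = fourierCoeff (⇑a : AddCircle (1 : ℝ) → ℂ) ((j : ℤ) - (k : ℤ))) ∧
                ∀ n, G n = P n * T * P n} := by
      apply NonUnitalAlgebra.subset_adjoin
      refine ⟨(memLp_top measurable_bdry_conj
        (fun t => by rw [RCLike.norm_conj]; exact (norm_bdry t).le)).toLp _, T', ?_, fun n => rfl⟩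
      intro j k
      rw [fourierCoeff_toLp_top measurable_bdry_conj
        (fun t => by rw [RCLike.norm_conj]; exact (norm_bdry t).le), fourierCoeff_conj]
      change (T' (e k)) j = _
      rw [T'_e]
      congr 1
      ring
    exact mul_mem (sub_mem hone (mul_mem hA hA')) (sub_mem hone (mul_mem hA' hA))
  · exact ⟨0, isCompactOperator_zero, fun x => tendsto_Z hP x⟩
  · exact ⟨0, isCompactOperator_zero, fun x => tendsto_WZW hP hW x⟩

end Pool.Agent.S05718
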