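import Pool.Statements.S06506
import Pool.Agent.L7h54.HN.G
import Pool.Agent.L7h54.HN.N

set_option autoImplicit false
open Pool Pool.MP_e5f19a_an

namespace Pool.Agent.S06506

open Pool.Agent.L7h54.HN in
/-- The negation of the preceding statement: Every domain in ℂ whose complement has positive logarithmic capacity (it contains a compact set carrying a finite-energy probability measure) has a non-constant holomorphic f on it with ∣f∣² bounded by a harmonic function. -/
theorem result :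
    ¬ (∀ Ω : Set ℂ, IsOpen Ω → IsConnected Ω →
      (∃ K : Set ℂ, IsCompact K ∧ K ⊆ Ωᶜ ∧
        ∃ μ : MeasureTheory.Measure ℂ, MeasureTheory.IsProbabilityMeasure μ ∧
          MeasureTheory.NoAtoms μ ∧ μ Kᶜ = 0 ∧
          MeasureTheory.Integrable (fun p : ℂ × ℂ => Real.log ‖p.1 - p.2‖) (μ.prod μ)) →
      ∃ f : ℂ → ℂ, DifferentiableOn ℂ f Ω ∧
        (∃ u : ℂ → ℝ,
          (∀ z ∈ Ω, ∃ r > 0, Metric.ball z r ⊆ Ω ∧
            ∃ g : ℂ → ℂ, DifferentiableOn ℂ g (Metric.ball z r) ∧
              ∀ w ∈ Metric.ball z r, u w = (g w).re) ∧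
          ∀ z ∈ Ω, ‖f z‖ ^ 2 ≤ u z) ∧
        ∃ z ∈ Ω, ∃ w ∈ Ω, f z ≠ f w) := by
  intro h
  obtain ⟨f, hf, ⟨u, hu, hfu⟩, z, hz, w, hw, hne⟩ := h (Eᶜ) isOpen_compl_E isConnected_compl
    ⟨E, isCompact_E, by rw [compl_compl], mu, inferInstance, noAtoms_mu, mu_compl, integrable_log⟩
  have hpos : Pos u := by
    refine ⟨fun z hz => ?_, fun z hz => (sq_nonneg _).trans (hfu z hz)⟩
    obtain ⟨r, hr, -, g, hg, hug⟩ := hu z hz
    have hball : Metric.ball z r ∈ nhds z := Metric.ball_mem_nhds z hr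
    have hga : AnalyticAt ℂ g z := hg.analyticAt hball
    have h1 := hga.harmonicAt_re
    refine (InnerProductSpace.harmonicAt_congr_nhds ?_).1 h1
    filter_upwards [hball] with w hw
    exact (hug w hw).symm
  exact hne (hardy_trivial hf hpos hfu hz hw)

end Pool.Agent.S06506
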