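import Pool.Statements.S06520
import Pool.Agent.L7h53.I2.Ideal
import Pool.Agent.H937R3.EllOne

/-!
# Closed ideals of codimension four of `ℓ¹(F₂)` are idempotent

Every closed two-sided ideal `I` of finite codimension of the Banach algebra `ℓ¹(G)` of a finitely
generated group `G` satisfies `I ^ 2 = I` (`Pool.Agent.L7h53.I2.ideal_idempotent`).

Idea. If `I ^ 2 ≠ I`, then there are continuous matrix representations `π₁`, `π₂` of `A = ℓ¹(G)` which
vanish on `I`, and a (discontinuous) derivation `D : A → M_n(ℂ)` which does not vanish on `I`. In the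
Banach algebra `M_n(A)` consider the power bounded elements `m_i`, the averages of
`δ_k ⊗ π_i(k⁻¹)ᵀ` over the generators `k`. The left ideal `Jr` of all `F` with `F * (averages of the
powers of m₂) → 0` and the right ideal `Jl` defined by `m₁` have approximate identities, and by
Cohen's factorization the functional `λ(F) = ∑ D(F_ab)_ab` is well behaved on both. The sum
`Jr + Jl` is closed, and a martingale argument (a Liouville theorem for twisted biharmonic functions)
shows that it contains `f ⊗ T` for all `f` in the kernel of `π₂`. So `λ(f ⊗ T) = 0`, that is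
`D(f) = 0`.
-/

set_option autoImplicit false
open Pool Pool.MP_e7dc85_an

namespace Pool.Agent.S06520

/-- The generators of the free group and their inverses. -/
def gens : Fin 2 × Bool → FreeGroup (Fin 2) := fun p =>
  if p.2 then FreeGroup.of p.1 else (FreeGroup.of p.1)⁻¹

lemma closure_gens : Submonoid.closure (Set.range gens) = ⊤ := by
  rw [eq_top_iff]
  rintro x -
  induction x using FreeGroup.induction_on with
  | C1 => exact Submonoid.one_mem _
  | of i => exact Submonoid.subset_closure ⟨(i, true), by simp [gens]⟩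
  | inv_of i _ => exact Submonoid.subset_closure ⟨(i, false), by simp [gens]⟩
  | mul x y hx hy => exact Submonoid.mul_mem _ hx hy

/-- The point masses. -/
noncomputable def dlt : FreeGroup (Fin 2) →* H937R3.EllOne (FreeGroup (Fin 2)) where
  toFun g := H937R3.EllOne.delta g
  map_one' := rfl
  map_mul' g h := (H937R3.EllOne.delta_mul_delta g h).symm

lemma dense_dlt : (Submodule.span ℂ (Set.range dlt)).topologicalClosure = ⊤ := by
  set p := (Submodule.span ℂ (Set.range dlt)).topologicalClosure with hp
  have hcl : IsClosed (p : Set (H937R3.EllOne (FreeGroup (Fin 2)))) :=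
    Submodule.isClosed_topologicalClosure _
  have h : p.mkQL = 0 := by
    refine H937R3.EllOne.clm_ext fun x => ?_
    show (Submodule.Quotient.mk (H937R3.EllOne.delta x) :
      (H937R3.EllOne (FreeGroup (Fin 2))) ⧸ p) = 0
    rw [Submodule.Quotient.mk_eq_zero]
    exact Submodule.le_topologicalClosure _ (Submodule.subset_span ⟨x, rfl⟩)
  rw [eq_top_iff]
  rintro x -
  rw [← Submodule.Quotient.mk_eq_zero]
  exact congrArg (fun f : _ →L[ℂ] _ => f x) h

/-- The negation of the preceding statement: There is a closed two-sided ideal of codimension exactly 4 in the convolution algebra ℓ¹ of the free group on two generators such that the linear span of products of pairs of elements of the ideal is not the whole ideal. -/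
theorem result :
    ¬ (∃ I : Submodule ℂ (lp (fun _ : FreeGroup (Fin 2) => ℂ) 1),
      IsClosed (I : Set (lp (fun _ : FreeGroup (Fin 2) => ℂ) 1)) ∧
      (∀ a ∈ I, ∀ b c : lp (fun _ : FreeGroup (Fin 2) => ℂ) 1,
        (∀ x : FreeGroup (Fin 2),
          (c : FreeGroup (Fin 2) → ℂ) x
            = ∑' y : FreeGroup (Fin 2),
                (a : FreeGroup (Fin 2) → ℂ) y * (b : FreeGroup (Fin 2) → ℂ) (y⁻¹ * x)) →
        c ∈ I) ∧
      (∀ a ∈ I, ∀ b c : lp (fun _ : FreeGroup (Fin 2) => ℂ) 1,
        (∀ x : FreeGroup (Fin 2),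
          (c : FreeGroup (Fin 2) → ℂ) x
            = ∑' y : FreeGroup (Fin 2),
                (b : FreeGroup (Fin 2) → ℂ) y * (a : FreeGroup (Fin 2) → ℂ) (y⁻¹ * x)) →
        c ∈ I) ∧
      Module.finrank ℂ ((lp (fun _ : FreeGroup (Fin 2) => ℂ) 1) ⧸ I) = 4 ∧
      ∃ c ∈ I, c ∉ Submodule.span ℂ
        {d : lp (fun _ : FreeGroup (Fin 2) => ℂ) 1 |
          ∃ a ∈ I, ∃ b ∈ I, ∀ x : FreeGroup (Fin 2),
            (d : FreeGroup (Fin 2) → ℂ) x
              = ∑' y : FreeGroup (Fin 2),
                  (a : FreeGroup (Fin 2) → ℂ) y * (b : FreeGroup (Fin 2) → ℂ) (y⁻¹ * x)}) := by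
  rintro ⟨I, hcl, hr, hl, hfin, c, hc, hcon⟩
  apply hcon
  have hfd : FiniteDimensional ℂ ((lp (fun _ : FreeGroup (Fin 2) => ℂ) 1) ⧸ I) :=
    Module.finite_of_finrank_pos (by rw [hfin]; norm_num)
  have hcs : CompleteSpace (H937R3.EllOne (FreeGroup (Fin 2))) :=
    (inferInstance : CompleteSpace (lp (fun _ : FreeGroup (Fin 2) => ℂ) 1))
  have key := L7h53.I2.ideal_idempotent (A := H937R3.EllOne (FreeGroup (Fin 2))) I
    (fun a x hx => hl x hx a _ fun z => H937R3.EllOne.conv_apply a x z)
    (fun a x hx => hr x hx a _ fun z => H937R3.EllOne.conv_apply x a z)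
    (δ := dlt) (fun g => (H937R3.EllOne.norm_delta g).le) gens closure_gens dense_dlt hcl hfd c hc
  refine Submodule.span_mono ?_ key
  rintro d ⟨a, ha, b, hb, rfl⟩
  exact ⟨a, ha, b, hb, fun z => H937R3.EllOne.conv_apply a b z⟩

end Pool.Agent.S06520
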