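import Pool.Statements.S07160

/-!
A 3-diregular oriented graph on 13 = 4 * 3 + 1 vertices without a Hamilton cycle.  The absence of a
Hamilton cycle is checked by an exhaustive search (about four thousand partial paths).
-/

set_option autoImplicit false
open Pool Pool.MP_0cd801_co

namespace Pool.Agent.S07160

/-- The out-neighbours of the vertices `0, ..., 12`. -/
def nb : List (List ℕ) :=
  [[7, 9, 12], [0, 10, 11], [4, 6, 12], [1, 8, 10], [0, 3, 8], [2, 4, 9], [1, 3, 11], [5, 8, 11],
   [0, 1, 5], [4, 7, 10], [2, 6, 7], [2, 3, 12], [5, 6, 9]]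

/-- The out-neighbours of `v`. -/
def outs (v : ℕ) : List ℕ := nb.getD v []

/-- Can the path ending in `v` with the used vertices `used` be extended by `k` further vertices to a
path from `0` whose last vertex has an arc to `0`? -/
def search : ℕ → ℕ → List ℕ → Bool
  | 0, v, _ => (outs v).contains 0
  | k + 1, v, used => (outs v).any fun w => !used.contains w && search k w (w :: used)

theorem search_false : search 12 0 [0] = false := by decide +kernel

/-- The digraph. -/
def D : Digraph (Fin 13) where
  Adj u v := (v : ℕ) ∈ outs u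

instance : DecidableRel D.Adj := fun u v => inferInstanceAs (Decidable ((v : ℕ) ∈ outs u))

theorem search_true (g : ℕ → Fin 13) (h0 : g 0 = 0)
    (hinj : ∀ i j, i < 13 → j < 13 → g i = g j → i = j)
    (hadj : ∀ i, i < 12 → D.Adj (g i) (g (i + 1))) (hlast : D.Adj (g 12) (g 0)) :
    ∀ k m, k + m = 12 →
      search k (g m) ((List.range (m + 1)).reverse.map fun i => ((g i : Fin 13) : ℕ)) = true := by
  intro k
  induction k with
  | zero =>
    intro m hm
    have : m = 12 := by omega
    subst this
    have h : ((g 0 : Fin 13) : ℕ) ∈ outs (g 12) := hlast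
    rw [h0] at h
    simpa [search] using h
  | succ k ih =>
    intro m hm
    have h := ih (m + 1) (by omega)
    have hm' : m < 12 := by omega
    rw [search, List.any_eq_true]
    refine ⟨((g (m + 1) : Fin 13) : ℕ), hadj m hm', ?_⟩
    rw [Bool.and_eq_true]
    constructor
    · rw [Bool.not_eq_true', List.contains_eq_mem, decide_eq_false_iff_not, List.mem_map]
      rintro ⟨i, hi, he⟩
      rw [List.mem_reverse, List.mem_range] at hi
      have := hinj i (m + 1) (by omega) (by omega) (Fin.ext he)
      omega
    · rw [List.range_succ, List.reverse_append] at h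
      simpa using h

theorem no_hamilton : ¬ ∃ f : Fin 13 → Fin 13, Function.Bijective f ∧
    ∀ i j : Fin 13, j.val = (i.val + 1) % 13 → D.Adj (f i) (f j) := by
  rintro ⟨f, hf, hadj⟩
  obtain ⟨a, ha⟩ := hf.2 0
  let g : ℕ → Fin 13 := fun i => f ⟨(a.val + i) % 13, Nat.mod_lt _ (by norm_num)⟩
  have hstep : ∀ i, D.Adj (g i) (g (i + 1)) := by
    intro i
    apply hadj
    show (a.val + (i + 1)) % 13 = ((a.val + i) % 13 + 1) % 13
    omega
  have h := search_true g ?_ ?_ (fun i _ => hstep i) ?_ 12 0 rfl
  · have h0 : g 0 = 0 := by
      show f ⟨(a.val + 0) % 13, _⟩ = 0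
      rw [← ha]
      congr 1
      apply Fin.ext
      have := a.isLt
      show (a.val + 0) % 13 = a.val
      omega
    rw [h0] at h
    have h1 : ((List.range (0 + 1)).reverse.map fun i => ((g i : Fin 13) : ℕ)) = [0] := by
      simp [h0]
    rw [h1] at h
    have h2 := search_false
    simp only [Fin.val_zero] at h
    rw [h2] at h
    exact Bool.false_ne_true h
  · show f ⟨(a.val + 0) % 13, _⟩ = 0
    rw [← ha]
    congr 1
    apply Fin.ext
    have := a.isLt
    show (a.val + 0) % 13 = a.val
    omega
  · intro i j hi hj h
    have h1 := congrArg Fin.val (hf.1 h)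
    have h2 : (a.val + i) % 13 = (a.val + j) % 13 := h1
    omega
  · have h12 := hstep 12
    have h13 : g (12 + 1) = g 0 := by
      show f ⟨(a.val + (12 + 1)) % 13, _⟩ = f ⟨(a.val + 0) % 13, _⟩
      congr 1
      apply Fin.ext
      show (a.val + (12 + 1)) % 13 = (a.val + 0) % 13
      omega
    rwa [h13] at h12

theorem out_card : ∀ v : Fin 13, (Finset.univ.filter fun u => D.Adj v u).card = 3 := by
  decide +kernel

theorem in_card : ∀ v : Fin 13, (Finset.univ.filter fun u => D.Adj u v).card = 3 := by
  decide +kernel

/-- The negation of the preceding statement: For every d > 2 and n ≤ 4d+1, every oriented graph on n vertices in which each vertex has in-degree d and out-degree d has a directed Hamilton cycle, i.e. a cyclic ordering of all n vertices with an arc from each vertex to the next. -/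
theorem result :
    ¬ (∀ (d n : ℕ), 2 < d → n ≤ 4 * d + 1 →
      ∀ G : Digraph (Fin n),
        (∀ u v : Fin n, G.Adj u v → ¬ G.Adj v u) →
        (∀ v : Fin n, Set.ncard {u : Fin n | G.Adj v u} = d) →
        (∀ v : Fin n, Set.ncard {u : Fin n | G.Adj u v} = d) →
        ∃ f : Fin n → Fin n, Function.Bijective f ∧
          ∀ i j : Fin n, j.val = (i.val + 1) % n → G.Adj (f i) (f j)) := by
  intro h
  refine no_hamilton (h 3 13 (by norm_num) (by norm_num) D ?_ ?_ ?_)
  · decide +kernel
  · intro v
    have h1 : {u : Fin 13 | D.Adj v u} = ((Finset.univ.filter fun u => D.Adj v u : Finset (Fin 13)) :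
        Set (Fin 13)) := by
      ext u; simp
    rw [h1, Set.ncard_coe_finset]
    exact out_card v
  · intro v
    have h1 : {u : Fin 13 | D.Adj u v} = ((Finset.univ.filter fun u => D.Adj u v : Finset (Fin 13)) :
        Set (Fin 13)) := by
      ext u; simp
    rw [h1, Set.ncard_coe_finset]
    exact in_card v

end Pool.Agent.S07160
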