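import Pool.Statements.S07963
import Pool.Agent.L7lead.Shameful

set_option autoImplicit false
open Pool Pool.MP_31cced_co

namespace Pool.Agent.S07963

open Pool.Agent.L7lead.Shameful

theorem card_coloring {V : Type} [Fintype V] [LinearOrder V] (G : SimpleGraph V) (x : ℕ) :
    (Nat.card (G.Coloring (Fin x)) : ℝ) = cnt G.Adj x := by
  classical
  have e : G.Coloring (Fin x) ≃ {f : V → Fin x // Good G.Adj f} :=
    { toFun := fun C => ⟨C, fun u w h => C.valid h⟩
      invFun := fun f => SimpleGraph.Coloring.mk f.1 (fun {u w} h => f.2 u w h)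
      left_inv := fun C => by ext v; rfl
      right_inv := fun f => rfl }
  rw [Nat.card_congr e, Nat.card_eq_fintype_card, Fintype.card_subtype]
  unfold cnt
  rw [sum_ind_eq_card]

/-- For every finite simple graph G on n vertices with clique number ω and every integer λ ≥ n, the number of proper (λ−1)-colourings divided by the number of proper λ-colourings is at most (1−ω/λ)(1−1/λ)^(n−ω). -/
theorem result :
    ∀ (V : Type) [Fintype V] (G : SimpleGraph V) (lam : ℕ),
      Fintype.card V ≤ lam →
      (Nat.card (G.Coloring (Fin (lam - 1))) : ℝ) / (Nat.card (G.Coloring (Fin lam)) : ℝ)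
        ≤ (1 - ((sSup {k : ℕ | ∃ s : Finset V, G.IsNClique k s} : ℕ) : ℝ) / (lam : ℝ))
          * (1 - 1 / (lam : ℝ)) ^ (Fintype.card V - sSup {k : ℕ | ∃ s : Finset V, G.IsNClique k s}) := by
  intro V _ G lam hV
  let _ : LinearOrder V := LinearOrder.lift' (Fintype.equivFin V) (Fintype.equivFin V).injective
  have hne : {k : ℕ | ∃ s : Finset V, G.IsNClique k s}.Nonempty :=
    ⟨0, ∅, by simp⟩
  have hbdd : BddAbove {k : ℕ | ∃ s : Finset V, G.IsNClique k s} := by
    refine ⟨Fintype.card V, ?_⟩
    rintro k ⟨s, hs⟩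
    rw [← hs.card_eq]
    exact Finset.card_le_univ _
  obtain ⟨K, hK⟩ := Nat.sSup_mem hne hbdd
  set w := sSup {k : ℕ | ∃ s : Finset V, G.IsNClique k s} with hw
  have hKw : K.card = w := hK.card_eq
  have hwV : w ≤ Fintype.card V := by rw [← hKw]; exact Finset.card_le_univ _
  have hwl : (w : ℝ) ≤ lam := by exact_mod_cast hwV.trans hV
  rw [card_coloring, card_coloring]
  have hR : 0 ≤ (1 - (w : ℝ) / (lam : ℝ)) * (1 - 1 / (lam : ℝ)) ^ (Fintype.card V - w) := by
    rcases Nat.eq_zero_or_pos lam with h0 | h0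
    · subst h0; simp
    · have h1 : (1 : ℝ) ≤ lam := by exact_mod_cast h0
      refine mul_nonneg ?_ (pow_nonneg ?_ _)
      · rw [sub_nonneg, div_le_one (by linarith)]; exact hwl
      · rw [sub_nonneg, div_le_one (by linarith)]; exact h1
  rcases Nat.lt_or_ge lam 2 with h2 | h2
  · -- at most one colour
    rcases isEmpty_or_nonempty V with hE | hNE
    · have hc : Fintype.card V = 0 := Fintype.card_eq_zero
      have hw0 : w = 0 := by omega
      have h1 : ∀ x : ℕ, cnt G.Adj x = 1 := by
        intro x
        unfold cnt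
        rw [Finset.sum_congr rfl (fun f _ => ind_true (p := Good G.Adj f)
          (fun u _ _ => (hE.false u).elim))]
        simp
      rw [h1, h1, hw0, hc]
      simp
    · have hl : lam - 1 = 0 := by omega
      have h1 : cnt G.Adj (lam - 1) = 0 := by
        rw [hl]
        unfold cnt
        have : IsEmpty (V → Fin 0) := ⟨fun f => (f (Classical.arbitrary V)).elim0⟩
        rw [Finset.univ_eq_empty, Finset.sum_empty]
      rw [h1, zero_div]
      exact hR
  · obtain ⟨x, rfl⟩ : ∃ x, lam = x + 1 := ⟨lam - 1, by omega⟩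
    have hx : 1 ≤ x := by omega
    rw [Nat.add_sub_cancel]
    have hcl : ∀ u ∈ K, ∀ v ∈ K, u ≠ v → G.Adj u v := fun u hu v hv huv =>
      hK.isClique (Finset.mem_coe.2 hu) (Finset.mem_coe.2 hv) huv
    have h := final K hcl hx hV
    rw [hKw] at h
    exact div_le_of_le_mul₀ (cnt_nonneg _ _) hR h

end Pool.Agent.S07963
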