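import Pool.Statements.S08110
import Mathlib

/-!
# A Boolean algebra whose algebraic dimension exceeds its order dimension

The algebraic and the order dimension of the Lebesgue measure algebra (measurable subsets of the
line modulo null sets) differ.

* Order dimension: the map which sends the class of `s` to the measures of its intersections with all
  balls with rational centre and radius is an order embedding into a countable product of chains,
  by Lebesgue's density theorem.
* Algebraic dimension: let `f` be a lattice homomorphism to a product of countably many chains.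
  For each coordinate `i`, splitting the unit interval `J` into small pieces gives a set `s i` of
  measure at most `2 ^ (- e i - 2)` on which the `i`-th coordinate of `f` takes the same value as on
  `J`. The set `A` of the points of `J` outside all `s i` is not null, it is disjoint from each `s i`,
  and so `f A = f ∅`.
-/

set_option autoImplicit false
universe u
open Pool Pool.MP_375da3_co

namespace Pool.Agent.S08110

open MeasureTheory Filter Set Metric Topology

/-- The class of a set of reals modulo Lebesgue null sets. -/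
noncomputable def cls (s : Set ℝ) : Germ (ae (volume : Measure ℝ)) Prop := ((fun x => x ∈ s : ℝ → Prop) : Germ _ Prop)

theorem cls_le {s t : Set ℝ} : cls s ≤ cls t ↔ ∀ᵐ x, x ∈ s → x ∈ t := by
  unfold cls
  rw [Germ.coe_le]
  rfl

theorem cls_sup (s t : Set ℝ) : cls s ⊔ cls t = cls (s ∪ t) := rfl

theorem cls_inf (s t : Set ℝ) : cls s ⊓ cls t = cls (s ∩ t) := rfl

/-- The Lebesgue measure algebra. -/
def MA : Sublattice (Germ (ae (volume : Measure ℝ)) Prop) where
  carrier := {g | ∃ s, MeasurableSet s ∧ cls s = g}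
  supClosed' := by
    rintro _ ⟨s, hs, rfl⟩ _ ⟨t, ht, rfl⟩
    exact ⟨s ∪ t, hs.union ht, (cls_sup s t).symm⟩
  infClosed' := by
    rintro _ ⟨s, hs, rfl⟩ _ ⟨t, ht, rfl⟩
    exact ⟨s ∩ t, hs.inter ht, (cls_inf s t).symm⟩

/-- The class of a measurable set. -/
noncomputable def mc (s : Set ℝ) (hs : MeasurableSet s) : MA := ⟨cls s, s, hs, rfl⟩

theorem mc_le {s t : Set ℝ} (hs ht) : mc s hs ≤ mc t ht ↔ ∀ᵐ x, x ∈ s → x ∈ t := cls_le

theorem mc_sup {s t : Set ℝ} (hs ht) : mc s hs ⊔ mc t ht = mc (s ∪ t) (hs.union ht) := rfl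

theorem mc_inf {s t : Set ℝ} (hs ht) : mc s hs ⊓ mc t ht = mc (s ∩ t) (hs.inter ht) := rfl

theorem mc_eq {s t : Set ℝ} (hs : MeasurableSet s) (ht : MeasurableSet t) (h : s =ᵐ[volume] t) :
    mc s hs = mc t ht := by
  apply le_antisymm
  · rw [mc_le]; filter_upwards [h] with x hx
    intro h1; exact (iff_of_eq hx).1 h1
  · rw [mc_le]; filter_upwards [h] with x hx
    intro h1; exact (iff_of_eq hx).2 h1

/-- A representative. -/
noncomputable def rep (a : MA) : Set ℝ := a.2.choose

theorem rep_meas (a : MA) : MeasurableSet (rep a) := a.2.choose_spec.1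

theorem mc_rep (a : MA) : mc (rep a) (rep_meas a) = a := Subtype.ext a.2.choose_spec.2

theorem le_iff (a b : MA) : a ≤ b ↔ ∀ᵐ x, x ∈ rep a → x ∈ rep b := by
  conv_lhs => rw [← mc_rep a, ← mc_rep b]
  exact mc_le _ _

/-- If `s` has at most the measure of `t` in every ball with rational centre and radius, then `s` is
contained in `t` up to a null set. -/
theorem reflect {s t : Set ℝ} (hs : MeasurableSet s) (ht : MeasurableSet t)
    (h : ∀ q r : ℚ, volume (s ∩ closedBall (q : ℝ) r) ≤ volume (t ∩ closedBall (q : ℝ) r)) :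
    ∀ᵐ x, x ∈ s → x ∈ t := by
  have h1 := (IsUnifLocDoublingMeasure.vitaliFamily (volume : Measure ℝ)
    1).ae_tendsto_measure_inter_div_of_measurableSet hs
  have h2 := (IsUnifLocDoublingMeasure.vitaliFamily (volume : Measure ℝ)
    1).ae_tendsto_measure_inter_div_of_measurableSet ht
  filter_upwards [h1, h2] with x hx1 hx2 hxs
  by_contra hxt
  rw [indicator_of_mem hxs] at hx1
  rw [indicator_of_notMem hxt] at hx2
  have hw : ∀ n : ℕ, ∃ q : ℚ, |x - q| < 1 / ((n : ℝ) + 1) := by
    intro n
    obtain ⟨q, hq1, hq2⟩ := exists_rat_btwn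
      (show x - 1 / ((n : ℝ) + 1) < x by
        have h0 : (0:ℝ) < 1 / ((n : ℝ) + 1) := by positivity
        linarith)
    refine ⟨q, ?_⟩
    rw [abs_lt]; constructor <;> linarith
  choose q hq using hw
  have hδ : Tendsto (fun n : ℕ => (((1 / ((n : ℚ) + 1) : ℚ)) : ℝ)) atTop (𝓝[>] 0) := by
    rw [tendsto_nhdsWithin_iff]
    refine ⟨?_, Eventually.of_forall fun n => ?_⟩
    · have := tendsto_one_div_add_atTop_nhds_zero_nat (𝕜 := ℝ)
      refine this.congr fun n => ?_
      push_cast
      rfl
    · have h0 : (0:ℚ) < 1 / ((n : ℚ) + 1) := by positivity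
      exact (Rat.cast_pos (K := ℝ)).2 h0
  have hT := IsUnifLocDoublingMeasure.tendsto_closedBall_filterAt (volume : Measure ℝ) (K := 1) (x := x)
    (fun n => (q n : ℝ)) (fun n : ℕ => (((1 / ((n : ℚ) + 1) : ℚ)) : ℝ)) hδ
    (Eventually.of_forall fun n => by
      rw [mem_closedBall, Real.dist_eq, one_mul]
      refine (hq n).le.trans (le_of_eq ?_)
      push_cast; rfl)
  have l1 := hx1.comp hT
  have l2 := hx2.comp hT
  have := le_of_tendsto_of_tendsto' l1 l2 fun n => ?_
  · simp at this
  · exact ENNReal.div_le_div_right (h (q n) _) _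

/-- The order embedding of the measure algebra in a countable power of a chain. -/
theorem order_emb : Nonempty (ULift.{u} MA ↪o (ULift.{u} (ℚ × ℚ) → ULift.{u} ENNReal)) := by
  refine ⟨OrderEmbedding.ofMapLEIff
    (fun a p => ⟨volume (rep a.down ∩ closedBall (p.down.1 : ℝ) p.down.2)⟩) ?_⟩
  intro a b
  constructor
  · intro h
    change a.down ≤ b.down
    rw [le_iff]
    refine reflect (rep_meas _) (rep_meas _) fun q r => ?_
    exact h ⟨(q, r)⟩
  · intro h p
    change a.down ≤ b.down at h
    rw [le_iff] at h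
    change volume _ ≤ volume _
    apply measure_mono_ae
    filter_upwards [h] with x hx hx2
    exact ⟨hx hx2.1, hx2.2⟩

theorem exists_max {D : Type u} [LinearOrder D] (f : ULift.{u} MA → D)
    (hsup : ∀ a b, f (a ⊔ b) = f a ⊔ f b) (n : ℕ) (N : ℝ) (hN : 0 < N) :
    ∃ s : Set ℝ, ∃ hs : MeasurableSet s, volume s ≤ ENNReal.ofReal N ∧
      f ⟨mc (Ico 0 ((n + 1 : ℕ) * N)) measurableSet_Ico⟩ = f ⟨mc s hs⟩ := by
  induction n with
  | zero =>
    refine ⟨Ico 0 ((0 + 1 : ℕ) * N), measurableSet_Ico, ?_, rfl⟩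
    simp
  | succ n ih =>
    obtain ⟨s, hs, hs1, hs2⟩ := ih
    have hun : Ico 0 ((n + 1 : ℕ) * N) ∪ Ico ((n + 1 : ℕ) * N) ((n + 1 + 1 : ℕ) * N)
        = Ico 0 ((n + 1 + 1 : ℕ) * N) := by
      apply Ico_union_Ico_eq_Ico
      · positivity
      · push_cast; nlinarith
    have e : (⟨mc (Ico 0 ((n + 1 + 1 : ℕ) * N)) measurableSet_Ico⟩ : ULift.{u} MA)
        = ⟨mc (Ico 0 ((n + 1 : ℕ) * N)) measurableSet_Ico⟩ ⊔
          ⟨mc (Ico ((n + 1 : ℕ) * N) ((n + 1 + 1 : ℕ) * N)) measurableSet_Ico⟩ := by
      apply ULift.ext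
      change mc _ measurableSet_Ico = mc _ measurableSet_Ico ⊔ mc _ measurableSet_Ico
      rw [mc_sup]
      congr 1
      exact hun.symm
    rw [e, hsup]
    rcases max_cases (f ⟨mc (Ico 0 ((n + 1 : ℕ) * N)) measurableSet_Ico⟩)
      (f ⟨mc (Ico ((n + 1 : ℕ) * N) ((n + 1 + 1 : ℕ) * N)) measurableSet_Ico⟩) with h | h
    · exact ⟨s, hs, hs1, by rw [h.1]; exact hs2⟩
    · refine ⟨_, measurableSet_Ico, ?_, h.1⟩
      rw [Real.volume_Ico]
      apply ENNReal.ofReal_le_ofReal
      push_cast; linarith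

/-- The negation of the preceding statement: For every distributive lattice T: if T order-embeds into a product of chains indexed by ι, then T embeds as a sublattice into some product of chains indexed by ι; that is, algebraic dimension equals order dimension. -/
theorem result :
    ¬ (∀ (T : Type u) [DistribLattice T] (ι : Type u) (C : ι → Type u)
      [∀ i, LinearOrder (C i)],
      Nonempty (T ↪o ((i : ι) → C i)) →
        ∃ (D : ι → Type u) (_ : ∀ i, LinearOrder (D i)),
          ∃ f : LatticeHom T ((i : ι) → D i), Function.Injective f) := by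
  intro H
  obtain ⟨D, hD, f, hf⟩ := H (ULift.{u} MA) (ULift.{u} (ℚ × ℚ)) (fun _ => ULift.{u} ENNReal) order_emb
  -- enumerate the indices
  obtain ⟨e, he⟩ := exists_injective_nat (ULift.{u} (ℚ × ℚ))
  -- small sets
  have hsm : ∀ i : ULift.{u} (ℚ × ℚ), ∃ s : Set ℝ, ∃ hs : MeasurableSet s,
      volume s ≤ ENNReal.ofReal ((1 / 2) ^ (e i + 2)) ∧
      f ⟨mc (Ico 0 1) measurableSet_Ico⟩ i = f ⟨mc s hs⟩ i := by
    intro i
    have := exists_max (fun a => f a i) (fun a b => by rw [SupHomClass.map_sup]; rfl) (2 ^ (e i + 2) - 1)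
      ((1 / 2) ^ (e i + 2)) (by positivity)
    have h2 : ((2 ^ (e i + 2) - 1 + 1 : ℕ) : ℝ) * (1 / 2) ^ (e i + 2) = 1 := by
      rw [Nat.sub_add_cancel (Nat.one_le_two_pow)]
      push_cast
      rw [← mul_pow]; norm_num
    simp only [h2] at this
    exact this
  choose s hs hs1 hs2 using hsm
  set C : Set ℝ := ⋃ i, s i with hC
  have hCm : MeasurableSet C := MeasurableSet.iUnion hs
  have hCv : volume C ≤ ENNReal.ofReal (1 / 2) := by
    refine (measure_iUnion_le _).trans ?_
    refine (ENNReal.tsum_le_tsum hs1).trans ?_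
    have hinj : ∑' i, ENNReal.ofReal ((1 / 2) ^ (e i + 2)) ≤ ∑' n : ℕ, ENNReal.ofReal ((1 / 2) ^ (n + 2)) :=
      ENNReal.tsum_comp_le_tsum_of_injective he _
    refine hinj.trans ?_
    rw [← ENNReal.ofReal_tsum_of_nonneg (fun n => by positivity)]
    · apply ENNReal.ofReal_le_ofReal
      have : ∀ n : ℕ, (1 / 2 : ℝ) ^ (n + 2) = (1 / 4) * (1 / 2) ^ n := by
        intro n; rw [pow_add]; ring
      simp_rw [this]
      rw [tsum_mul_left, tsum_geometric_two]; norm_num
    · have := (summable_nat_add_iff (f := fun n : ℕ => (1 / 2 : ℝ) ^ n) 2).2 summable_geometric_two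
      exact this
  set A : Set ℝ := Ico 0 1 \ C with hA
  have hAm : MeasurableSet A := measurableSet_Ico.diff hCm
  have hApos : volume A ≠ 0 := by
    intro h0
    have : volume (Ico (0 : ℝ) 1) ≤ volume A + volume C := by
      refine (measure_mono ?_).trans (measure_union_le _ _)
      intro x hx
      by_cases hx2 : x ∈ C
      · exact Or.inr hx2
      · exact Or.inl ⟨hx, hx2⟩
    rw [h0, zero_add, Real.volume_Ico] at this
    have h3 := this.trans hCv
    rw [ENNReal.ofReal_le_ofReal_iff (by norm_num)] at h3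
    norm_num at h3
  -- the values at A and at the empty set agree
  have hval : f ⟨mc A hAm⟩ = f ⟨mc ∅ MeasurableSet.empty⟩ := by
    funext i
    have h1 : f (⟨mc A hAm⟩ ⊓ ⟨mc (s i) (hs i)⟩) i = f ⟨mc A hAm⟩ i ⊓ f ⟨mc (s i) (hs i)⟩ i := by
      rw [InfHomClass.map_inf]; rfl
    have h2 : (⟨mc A hAm⟩ ⊓ ⟨mc (s i) (hs i)⟩ : ULift.{u} MA) = ⟨mc ∅ MeasurableSet.empty⟩ := by
      apply ULift.ext
      change mc _ hAm ⊓ mc _ (hs i) = _
      rw [mc_inf]
      congr 1
      rw [hA]
      ext x
      simp only [mem_inter_iff, Set.mem_sdiff, mem_empty_iff_false, iff_false, not_and]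
      rintro ⟨_, h⟩ h'
      exact h (mem_iUnion.2 ⟨i, h'⟩)
    have h3 : f ⟨mc A hAm⟩ i ≤ f ⟨mc (s i) (hs i)⟩ i := by
      rw [← hs2 i]
      have : (⟨mc A hAm⟩ : ULift.{u} MA) ≤ ⟨mc (Ico 0 1) measurableSet_Ico⟩ := by
        change mc _ hAm ≤ mc _ measurableSet_Ico
        rw [mc_le]
        exact Eventually.of_forall fun x hx => hx.1
      exact OrderHomClass.mono f this i
    rw [← h2, h1, inf_eq_left.2 h3]
  have h4 := hf hval
  have h5 : mc A hAm = mc ∅ MeasurableSet.empty := congrArg ULift.down h4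
  have h6 := (mc_le hAm MeasurableSet.empty).1 h5.le
  apply hApos
  rw [measure_eq_zero_iff_ae_notMem]
  filter_upwards [h6] with x hx h7
  exact hx h7

end Pool.Agent.S08110
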