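import Pool.Statements.S09049
import Pool.Agent.L7h33.BD.Rec
import Pool.Agent.L7h33.BD.Tree
import Pool.Agent.L7h80.BD.ForTerm
import Pool.Agent.L7h80.BD.Final

set_option autoImplicit false
open Pool Pool.MP_5f065d_co

namespace Pool.Agent.S09049

/-- For each d ≥ 1 there is f such that every finite graph that is a union of a forest and a forest with components of diameter ≤ d splits edge-disjointly into two forests whose components all have diameter ≤ f. -/
theorem result :
    ∀ d : ℕ, 1 ≤ d → ∃ f : ℕ, ∀ (V : Type) [Fintype V] (G F₁ F₂ : SimpleGraph V),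
      F₁.IsAcyclic → F₂.IsAcyclic →
      (∀ u v : V, F₂.Reachable u v → F₂.dist u v ≤ d) →
      G = F₁ ⊔ F₂ →
      ∃ H₁ H₂ : SimpleGraph V, H₁ ⊔ H₂ = G ∧ Disjoint H₁ H₂ ∧
        H₁.IsAcyclic ∧ H₂.IsAcyclic ∧
        (∀ u v : V, H₁.Reachable u v → H₁.dist u v ≤ f) ∧
        (∀ u v : V, H₂.Reachable u v → H₂.dist u v ≤ f) := by
  exact Pool.Agent.L7h80.BD.final' (Pool.Agent.L7h33.BD.thmA_of_forTerm
    (Pool.Agent.L7h80.BD.forTerm_of_treeTerm Pool.Agent.L7h33.BD.treeTerm))

end Pool.Agent.S09049
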