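import Pool.Statements.S09181
import Pool.Agent.K7.H15.WR.Idx
import Pool.Agent.L7h38.WS.Start

set_option autoImplicit false
open Classical
open Pool Pool.MP_632be6_co

namespace Pool.Agent.S09181

/-- For all finite simple graphs G (with an edge) and G', if the chromatic index of G equals its maximum degree, then the chromatic index of the wreath product G ρ G' equals its maximum degree. -/
theorem result :
    ∀ (V W : Type) [Fintype V] [Fintype W] (G : SimpleGraph V) (G' : SimpleGraph W)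
      (H : SimpleGraph (V × W)),
      H = SimpleGraph.fromRel (fun p q : V × W =>
            (p.1 = q.1 ∧ G'.Adj p.2 q.2) ∨
            (G.Adj p.1 q.1 ∧ ∃ φ : G' ≃g G', φ p.2 = q.2)) →
      G.edgeSet.Nonempty →
      sInf {k : ℕ | ∃ c : Sym2 V → Fin k, ∀ e ∈ G.edgeSet, ∀ f ∈ G.edgeSet,
              e ≠ f → (∃ v, v ∈ e ∧ v ∈ f) → c e ≠ c f} = G.maxDegree →
      sInf {k : ℕ | ∃ c : Sym2 (V × W) → Fin k, ∀ e ∈ H.edgeSet, ∀ f ∈ H.edgeSet,
              e ≠ f → (∃ v, v ∈ e ∧ v ∈ f) → c e ≠ c f} = H.maxDegree := by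
  intro V W _ _ G G' H hH hne hG
  obtain ⟨hd, hEC⟩ := Pool.Agent.K7.H15.WR.ec_of_idx hne hG
  have hw : H = Pool.Agent.X76.Wr.wreath G G' := by
    rw [hH]
    ext p q
    rw [SimpleGraph.fromRel_adj]
    constructor
    · rintro ⟨-, h1 | h1⟩
      · exact h1
      · exact SimpleGraph.Adj.symm (G := Pool.Agent.X76.Wr.wreath G G') h1
    · intro h1
      exact ⟨SimpleGraph.ne_of_adj _ h1, Or.inl h1⟩
  obtain ⟨e₀, he₀⟩ := hne
  have hle : ∀ u, G.maxDegree * Pool.Agent.X76.Wr.orb G' u + G'.degree u ≤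
      (Pool.Agent.X76.Wr.wreath G G').maxDegree := by
    intro u
    exact Pool.Agent.X76.Wr.max_bound G G' e₀.out.1 u
  have hmain : Pool.Agent.X76.Wr.EC (Pool.Agent.X76.Wr.wreath G G').maxDegree
      (Pool.Agent.X76.Wr.wreath G G') := by
    by_cases h : 2 ≤ G.maxDegree
    · exact Pool.Agent.K7.H15.WR.main_EC hd hEC hle (Or.inl h)
    · have h1 : G.maxDegree = 1 := by omega
      rw [h1] at hEC
      refine Pool.Agent.L7h38.WS.wreath_match G G' _ hEC ?_
      intro w
      have h2 := hle w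
      rw [h1, one_mul] at h2
      exact h2
  rw [hw]
  rcases isEmpty_or_nonempty W with hW | ⟨⟨w⟩⟩
  · have h0 : 0 ∈ Pool.Agent.K7.H15.WR.Cols (Pool.Agent.X76.Wr.wreath G G') := by
      refine ⟨fun e => (hW.false e.out.1.2).elim, fun e _ => (hW.false e.out.1.2).elim⟩
    have h1 := Pool.Agent.K7.H15.WR.le_of_cols h0
    have h2 : sInf (Pool.Agent.K7.H15.WR.Cols (Pool.Agent.X76.Wr.wreath G G')) = 0 :=
      Nat.sInf_eq_zero.2 (Or.inl h0)
    exact h2.trans (Nat.le_zero.1 h1).symm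
  · refine Pool.Agent.K7.H15.WR.idx_eq hmain ?_
    have h1 := hle w
    have h2 : 1 ≤ Pool.Agent.X76.Wr.orb G' w := by
      unfold Pool.Agent.X76.Wr.orb
      exact (Set.ncard_pos (Set.toFinite _)).2 ⟨w, SimpleGraph.Iso.refl, rfl⟩
    have h3 := Nat.mul_le_mul hd h2
    omega

end Pool.Agent.S09181
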