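import Pool.Statements.S10336
import Pool.Agent.L7h14.Occ.Basic

set_option autoImplicit false
open Classical
open Pool Pool.MP_99d978_co

namespace Pool.Agent.S10336

open Pool.Agent.L7h14


/-- the sextic -/
private lemma exists_root : ∃ L : ℝ, L ≤ 2 ∧
    90*L^6 + 729*L^5 - 188*L^4 - 1632*L^3 - 1247*L^2 - 363*L - 38 = 0 ∧
    ∀ x : ℝ, 90*x^6 + 729*x^5 - 188*x^4 - 1632*x^3 - 1247*x^2 - 363*x - 38 = 0 → x ≤ L := by
  set p : ℝ → ℝ := fun x => 90*x^6 + 729*x^5 - 188*x^4 - 1632*x^3 - 1247*x^2 - 363*x - 38 with hp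
  have hc : Continuous p := by fun_prop
  have hbig : ∀ x, p x = 0 → x ≤ 2 := by
    intro x hx
    by_contra h
    rw [not_le] at h
    obtain ⟨t, ht, rfl⟩ : ∃ t : ℝ, 0 < t ∧ x = 2 + t := ⟨x - 2, by linarith, by ring⟩
    have : p (2 + t) = 7272 + 44649*t + 64369*t^2 + 40424*t^3 + 12502*t^4 + 1809*t^5 + 90*t^6 := by
      simp only [hp]; ring
    rw [this] at hx
    have : 0 < 7272 + 44649*t + 64369*t^2 + 40424*t^3 + 12502*t^4 + 1809*t^5 + 90*t^6 := by
      positivity
    linarith
  have hK : IsCompact {x | x ∈ Set.Icc (0:ℝ) 2 ∧ p x = 0} :=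
    isCompact_Icc.inter_right (isClosed_singleton.preimage hc)
  have hne : {x | x ∈ Set.Icc (0:ℝ) 2 ∧ p x = 0}.Nonempty := by
    have h0 : p 0 ≤ 0 := by simp only [hp]; norm_num
    have h2 : 0 ≤ p 2 := by simp only [hp]; norm_num
    obtain ⟨x, hx, hx0⟩ := intermediate_value_Icc (by norm_num : (0:ℝ) ≤ 2) hc.continuousOn ⟨h0, h2⟩
    exact ⟨x, hx, hx0⟩
  obtain ⟨L, hL, hmax⟩ := hK.exists_isGreatest hne
  refine ⟨L, hL.1.2, hL.2, fun x hx => ?_⟩
  by_cases h0 : 0 ≤ x
  · exact hmax ⟨⟨h0, hbig x hx⟩, hx⟩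
  · exact (not_le.1 h0).le.trans hL.1.1

/-- The negation of the preceding statement: Let L be the largest real root of the sextic. For every finite 4-regular triangle-free G and λ>0: if λ≤L, G's occupancy fraction is at least the Robertson graph's (4-regular, girth 5, 19 vertices); if λ≥L, at least that of the circulant on Z13 with jumps ±1,±5. -/
theorem result :
    ¬ (∀ L : ℝ,
      90*L^6 + 729*L^5 - 188*L^4 - 1632*L^3 - 1247*L^2 - 363*L - 38 = 0 →
      (∀ x : ℝ, 90*x^6 + 729*x^5 - 188*x^4 - 1632*x^3 - 1247*x^2 - 363*x - 38 = 0 → x ≤ L) →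
      ∀ (V : Type) [Fintype V] [Nonempty V] (G : SimpleGraph V),
        G.IsRegularOfDegree 4 → G.CliqueFree 3 →
        ∀ H : SimpleGraph (Fin 19), H.IsRegularOfDegree 4 → (5 : ℕ∞) ≤ H.egirth →
        ∀ l : ℝ, 0 < l →
          (l ≤ L →
            (∑ I : Finset (Fin 19), if H.IsIndepSet (I : Set (Fin 19)) then (I.card : ℝ) * l ^ I.card else 0) /
              ((Fintype.card (Fin 19) : ℝ) *
                ∑ I : Finset (Fin 19), if H.IsIndepSet (I : Set (Fin 19)) then l ^ I.card else 0)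
            ≤
            (∑ I : Finset V, if G.IsIndepSet (I : Set V) then (I.card : ℝ) * l ^ I.card else 0) /
              ((Fintype.card V : ℝ) *
                ∑ I : Finset V, if G.IsIndepSet (I : Set V) then l ^ I.card else 0)) ∧
          (L ≤ l →
            (∑ I : Finset (ZMod 13),
                if (SimpleGraph.fromRel (fun x y : ZMod 13 => x - y = 1 ∨ x - y = 5)).IsIndepSet
                    (I : Set (ZMod 13))
                then (I.card : ℝ) * l ^ I.card else 0) /
              ((Fintype.card (ZMod 13) : ℝ) *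
                ∑ I : Finset (ZMod 13),
                  if (SimpleGraph.fromRel (fun x y : ZMod 13 => x - y = 1 ∨ x - y = 5)).IsIndepSet
                      (I : Set (ZMod 13))
                  then l ^ I.card else 0)
            ≤
            (∑ I : Finset V, if G.IsIndepSet (I : Set V) then (I.card : ℝ) * l ^ I.card else 0) /
              ((Fintype.card V : ℝ) *
                ∑ I : Finset V, if G.IsIndepSet (I : Set V) then l ^ I.card else 0))) := by
  intro hall
  obtain ⟨L, hL2, hL, hmax⟩ := exists_root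
  have h := (hall L hL hmax (Fin 20) Occ.G20
    (fun v => by convert Occ.reg20 v) Occ.cliqueFree20
    Occ.G19 (fun v => by convert Occ.reg19 v)
    Occ.egirth19 2 (by norm_num)).2 hL2
  have e1 := fun inst => Occ.sum_eq (n := 20) Occ.A20 Fin.valEmbedding (fun v => v.2)
      (fun k hk => ⟨⟨k, hk⟩, rfl⟩) Occ.G20 (fun i j => Iff.rfl) Occ.hs20 Occ.hi20
      (fun c => 2 ^ c) (fun c => (2:ℝ) ^ c) (fun c => by push_cast; rfl) inst
  have e2 := fun inst => Occ.sum_eq (n := 20) Occ.A20 Fin.valEmbedding (fun v => v.2)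
      (fun k hk => ⟨⟨k, hk⟩, rfl⟩) Occ.G20 (fun i j => Iff.rfl) Occ.hs20 Occ.hi20
      (fun c => c * 2 ^ c) (fun c => (c : ℝ) * (2:ℝ) ^ c) (fun c => by push_cast; rfl) inst
  have e3 := fun inst => Occ.sum_eq (n := 13) Occ.A13 Occ.e13 Occ.e13_lt Occ.e13_surj
      (SimpleGraph.fromRel (fun x y : ZMod 13 => x - y = 1 ∨ x - y = 5))
      (fun i j => by rw [SimpleGraph.fromRel_adj]; exact Occ.adj13 i j) Occ.hs13 Occ.hi13
      (fun c => 2 ^ c) (fun c => (2:ℝ) ^ c) (fun c => by push_cast; rfl) inst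
  have e4 := fun inst => Occ.sum_eq (n := 13) Occ.A13 Occ.e13 Occ.e13_lt Occ.e13_surj
      (SimpleGraph.fromRel (fun x y : ZMod 13 => x - y = 1 ∨ x - y = 5))
      (fun i j => by rw [SimpleGraph.fromRel_adj]; exact Occ.adj13 i j) Occ.hs13 Occ.hi13
      (fun c => c * 2 ^ c) (fun c => (c : ℝ) * (2:ℝ) ^ c) (fun c => by push_cast; rfl) inst
  have h1 := @e1 (fun I => @SimpleGraph.instDecidableIsIndepSetCoeFinsetOfDecidableEqOfDecidableRelAdj
    _ _ (fun a b => propDecidable _) (fun a b => propDecidable _) I)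
  have h2 := @e2 (fun I => @SimpleGraph.instDecidableIsIndepSetCoeFinsetOfDecidableEqOfDecidableRelAdj
    _ _ (fun a b => propDecidable _) (fun a b => propDecidable _) I)
  rw [h1, h2] at h
  simp only [e3, e4, Occ.T20, Occ.T20', Occ.T13, Occ.T13', Fintype.card_fin, ZMod.card] at h
  norm_num at h

end Pool.Agent.S10336
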