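import Pool.Statements.S12123
import Pool.Agent.L7h70.RG.Main
-- import your own Pool.Agent.* helpers here

set_option autoImplicit false
open Pool Pool.MP_e72b8f_co

namespace Pool.Agent.S12123

/-- For fixed d and β(n)=o(n), and any fixed nonempty H, every large enough connected d-degenerate n-vertex graph G of bandwidth at most β(n) has Ramsey number R(G,H) equal to (χ(H)−1)(n−1)+σ(H). -/
theorem result :
    ∀ d : ℕ, ∀ β : ℕ → ℕ,
      Filter.Tendsto (fun n : ℕ => (β n : ℝ) / (n : ℝ)) Filter.atTop (nhds 0) →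
      ∀ (m : ℕ) (H : SimpleGraph (Fin m)), 0 < m →
        ∃ n0 : ℕ, ∀ n : ℕ, n0 ≤ n →
          ∀ G : SimpleGraph (Fin n), G.Connected →
            (∀ S : Finset (Fin n), S.Nonempty →
              ∃ v ∈ S, ({w : Fin n | w ∈ S ∧ G.Adj v w} : Set (Fin n)).ncard ≤ d) →
            (∃ f : Fin n ≃ Fin n, ∀ u v : Fin n, G.Adj u v →
              |((f u : ℕ) : ℤ) - ((f v : ℕ) : ℤ)| ≤ (β n : ℤ)) →
            ∀ k s : ℕ, H.chromaticNumber = (k : ℕ∞) →
              (∃ c : Fin m → Fin k, (∀ u v : Fin m, H.Adj u v → c u ≠ c v) ∧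
                ∃ i : Fin k, ({u : Fin m | c u = i} : Set (Fin m)).ncard = s) →
              (∀ c : Fin m → Fin k, (∀ u v : Fin m, H.Adj u v → c u ≠ c v) →
                ∀ i : Fin k, s ≤ ({u : Fin m | c u = i} : Set (Fin m)).ncard) →
              (∀ F : SimpleGraph (Fin ((k - 1) * (n - 1) + s)),
                  G.IsContained F ∨ H.IsContained Fᶜ) ∧
              (∃ F : SimpleGraph (Fin ((k - 1) * (n - 1) + s - 1)),
                  ¬ G.IsContained F ∧ ¬ H.IsContained Fᶜ) := by
  intro d β hβ m H hm
  classical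
  have hex : ∀ T s : ℕ, ∃ n0 : ℕ, 1 ≤ T → 1 ≤ s → s ≤ m → ∀ n, n0 ≤ n →
      ∀ (G : SimpleGraph (Fin n)),
      (∀ S : Finset (Fin n), S.Nonempty → ∃ v ∈ S, Pool.Agent.L7h70.RG.dg G S v ≤ d) →
      (∀ u v, G.Adj u v → (u : ℕ) ≤ v + β n) → ∀ {V : Type} [Fintype V] (B : SimpleGraph V),
      Fintype.card V = T * (n - 1) + s →
      (¬ ∃ (A0 : Finset V) (A : Fin T → Finset V), A0.card = s ∧ (∀ a, (A a).card = m) ∧
        (∀ a, Pool.Agent.L7h70.RG.Cmp B A0 (A a)) ∧
          ∀ a b, a < b → Pool.Agent.L7h70.RG.Cmp B (A a) (A b)) →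
      ∃ φ : Fin n → V, Function.Injective φ ∧ ∀ u v, G.Adj u v → ¬ B.Adj (φ u) (φ v) := by
    intro T s
    by_cases h : 1 ≤ T ∧ 1 ≤ s ∧ s ≤ m
    · obtain ⟨n0, hn0⟩ := Pool.Agent.L7h70.RG.upper_beta d β hβ T m s h.1 h.2.1 h.2.2
      exact ⟨n0, fun _ _ _ => hn0⟩
    · exact ⟨0, fun h1 h2 h3 => absurd ⟨h1, h2, h3⟩ h⟩
  choose n0 hn0 using hex
  refine ⟨(∑ T ∈ Finset.range (m + 1), ∑ s ∈ Finset.range (m + 1), n0 T s) + m + 2, ?_⟩
  intro n hn G hGc hGd hGb k s hk hc hmin
  obtain ⟨c, hcp, i0, hi0⟩ := hc
  obtain ⟨f, hf⟩ := hGb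
  -- basic facts
  have hk1 : 1 ≤ k := by
    have := i0.2
    omega
  have hcard : ∀ (c : Fin m → Fin k) (i : Fin k), ({u : Fin m | c u = i} : Set (Fin m)).ncard =
      (Finset.univ.filter (fun u => c u = i)).card := by
    intro c i
    rw [← Set.ncard_coe_finset]
    congr 1
    ext u
    simp
  have hcol : H.Colorable k := ⟨SimpleGraph.Coloring.mk c (fun {u v} h => hcp u v h)⟩
  have hkm : k ≤ m := by
    have h1 : H.Colorable m := by
      have := H.colorable_of_fintype
      rwa [Fintype.card_fin] at this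
    have h2 := h1.chromaticNumber_le
    rw [hk] at h2
    exact_mod_cast h2
  have hs1 : 1 ≤ s := by
    by_contra hcon
    have hs0 : s = 0 := by omega
    rw [hs0, hcard, Finset.card_eq_zero, Finset.filter_eq_empty_iff] at hi0
    have h1 : H.Colorable (Fintype.card {j : Fin k // j ≠ i0}) := by
      refine SimpleGraph.Coloring.colorable (SimpleGraph.Coloring.mk
        (fun u => (⟨c u, fun h => hi0 (Finset.mem_univ u) h⟩ : {j : Fin k // j ≠ i0})) ?_)
      intro u v huv h
      exact hcp u v huv (congrArg Subtype.val h)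
    rw [Fintype.card_subtype_compl, Fintype.card_fin, Fintype.card_unique] at h1
    have h2 := h1.chromaticNumber_le
    rw [hk] at h2
    have h3 : k ≤ k - 1 := by exact_mod_cast h2
    omega
  have hsm : s ≤ m := by
    rw [← hi0, hcard]
    refine (Finset.card_le_univ _).trans ?_
    rw [Fintype.card_fin]
  refine ⟨?_, ?_⟩
  · intro F
    rcases Nat.lt_or_ge k 2 with hk2 | hk2
    · -- k = 1
      have hk' : k = 1 := by omega
      subst hk'
      right
      have hsm' : s = m := by
        rw [← hi0, hcard]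
        have : (Finset.univ.filter (fun u => c u = i0)) = (Finset.univ : Finset (Fin m)) := by
          rw [Finset.filter_eq_self]
          intro u _
          exact Subsingleton.elim _ _
        rw [this, Finset.card_univ, Fintype.card_fin]
      refine ⟨⟨⟨fun u => ⟨u, by have := u.2; omega⟩, ?_⟩, ?_⟩⟩
      · intro u v huv
        exact absurd (Subsingleton.elim _ _) (hcp u v huv)
      · intro u v huv
        have := congrArg Fin.val huv
        exact Fin.ext this
    · by_cases hK : ∃ (A0 : Finset (Fin ((k - 1) * (n - 1) + s)))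
          (A : Fin (k - 1) → Finset (Fin ((k - 1) * (n - 1) + s))), A0.card = s ∧
          (∀ a, (A a).card = m) ∧ (∀ a, Pool.Agent.L7h70.RG.Cmp Fᶜ A0 (A a)) ∧
          ∀ a b, a < b → Pool.Agent.L7h70.RG.Cmp Fᶜ (A a) (A b)
      · right
        obtain ⟨A0, A, hA0, hA, h0A, hAA⟩ := hK
        have hcardT : Fintype.card {j : Fin k // j ≠ i0} = k - 1 := by
          rw [Fintype.card_subtype_compl, Fintype.card_fin, Fintype.card_unique]
        set e : {j : Fin k // j ≠ i0} ≃ Fin (k - 1) := Fintype.equivFinOfCardEq hcardT with he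
        have : Nonempty (Fin ((k - 1) * (n - 1) + s)) := ⟨⟨0, by omega⟩⟩
        refine Pool.Agent.L7h70.RG.contain_of_K H Fᶜ c hcp
          (fun j => if h : j = i0 then A0 else A (e ⟨j, h⟩)) ?_ ?_
        · have key : ∀ i j (hi : i ≠ i0) (hj : j ≠ i0), i ≠ j →
              Pool.Agent.L7h70.RG.Cmp Fᶜ (A (e ⟨i, hi⟩)) (A (e ⟨j, hj⟩)) := by
            intro i j hi hj hij
            have hne : e ⟨i, hi⟩ ≠ e ⟨j, hj⟩ := by
              intro h
              exact hij (congrArg Subtype.val (e.injective h))
            rcases lt_or_gt_of_ne hne with h | h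
            · exact hAA _ _ h
            · intro x hx y hy
              exact (hAA _ _ h y hy x hx).symm
          intro i j hij
          by_cases hi : i = i0
          · by_cases hj : j = i0
            · exact absurd (hi.trans hj.symm) hij
            · simp only [dif_pos hi, dif_neg hj]
              exact h0A _
          · by_cases hj : j = i0
            · simp only [dif_neg hi, dif_pos hj]
              intro x hx y hy
              exact (h0A _ y hy x hx).symm
            · simp only [dif_neg hi, dif_neg hj]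
              exact key i j hi hj hij
        · intro i
          by_cases hi : i = i0
          · simp only [dif_pos hi]
            rw [hA0, ← hi0, hcard, hi]
          · simp only [dif_neg hi]
            rw [hA]
            refine (Finset.card_le_univ _).trans ?_
            rw [Fintype.card_fin]
      · left
        have hnn : n0 (k - 1) s ≤ n := by
          have h1 : n0 (k - 1) s ≤ ∑ s ∈ Finset.range (m + 1), n0 (k - 1) s :=
            Finset.single_le_sum (f := fun s => n0 (k - 1) s) (fun _ _ => Nat.zero_le _)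
              (Finset.mem_range.mpr (by omega))
          have h2 : ∑ s ∈ Finset.range (m + 1), n0 (k - 1) s ≤
              ∑ T ∈ Finset.range (m + 1), ∑ s ∈ Finset.range (m + 1), n0 T s :=
            Finset.single_le_sum (f := fun T => ∑ s ∈ Finset.range (m + 1), n0 T s)
              (fun _ _ => Nat.zero_le _) (Finset.mem_range.mpr (by omega))
          omega
        have hGd' : ∀ S : Finset (Fin n), S.Nonempty →
            ∃ v ∈ S, Pool.Agent.L7h70.RG.dg G S v ≤ d := by
          intro S hS
          obtain ⟨v, hv, hvd⟩ := hGd S hS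
          refine ⟨v, hv, ?_⟩
          refine le_trans (le_of_eq ?_) hvd
          unfold Pool.Agent.L7h70.RG.dg Pool.Agent.L7h70.RG.nb
          rw [← Set.ncard_coe_finset]
          congr 1
          ext w
          simp
        obtain ⟨h1, h2⟩ := Pool.Agent.L7h70.RG.relabel G hGd' f hf
        obtain ⟨φ, hφ1, hφ2⟩ := hn0 (k - 1) s (by omega) hs1 hsm n hnn (G.comap f.symm) h1 h2 Fᶜ
          (by rw [Fintype.card_fin]) hK
        refine ⟨⟨⟨fun u => φ (f u), ?_⟩, ?_⟩⟩
        · intro u v huv
          have h3 := hφ2 (f u) (f v) (by simpa using huv)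
          have h4 : φ (f u) ≠ φ (f v) := by
            intro h
            exact G.ne_of_adj huv (f.injective (hφ1 h))
          rw [SimpleGraph.compl_adj, not_and, not_not] at h3
          exact h3 h4
        · exact hφ1.comp f.injective
  · exact ⟨Pool.Agent.L7h70.RG.LB _ n, Pool.Agent.L7h70.RG.lower1 (by omega) G hGc,
      Pool.Agent.L7h70.RG.lower2 (by omega) (by omega) hk1 hs1 H hmin⟩

end Pool.Agent.S12123
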