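import Pool.Statements.S12152
import Pool.Agent.L7h97.Hg.Minor

set_option autoImplicit false
open SimpleGraph
open Pool Pool.MP_e821ef_co

namespace Pool.Agent.S12152

/-- The negation of the preceding statement: A length space is quasi-isometric to some planar graph with edge weights in (0,1] (weighted path metric on vertices) if and only if, for K equal to K5 or K3,3, it fails to have K-fat minors of that graph for every K>0. -/
theorem result :
    ¬ (∀ (X : Type) [MetricSpace X],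
    (∀ x y : X, ∀ ε : ℝ, 0 < ε → ∃ γ : Path x y,
        eVariationOn (fun t : unitInterval => γ t) Set.univ ≤ ENNReal.ofReal (dist x y + ε)) →
    ((∃ (W : Type) (G : SimpleGraph W) (wt : Sym2 W → ℝ),
        G.Preconnected ∧
        (∀ e ∈ G.edgeSet, 0 < wt e ∧ wt e ≤ 1) ∧
        (∃ (φ : W → ℝ × ℝ) (α : W → W → unitInterval → ℝ × ℝ),
          Function.Injective φ ∧
          (∀ a b, G.Adj a b → Continuous (α a b) ∧ Function.Injective (α a b) ∧
              α a b 0 = φ a ∧ α a b 1 = φ b ∧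
              ∀ t : unitInterval, 0 < t → t < 1 → ∀ c, α a b t ≠ φ c) ∧
          (∀ a b a' b', G.Adj a b → G.Adj a' b' → s(a, b) ≠ s(a', b') →
              ∀ t t' : unitInterval, 0 < t → t < 1 → 0 < t' → t' < 1 →
                α a b t ≠ α a' b' t')) ∧
        ∃ (f : X → W) (M A : ℝ), 1 ≤ M ∧ 0 ≤ A ∧
          (∀ x y : X,
            M⁻¹ * dist x y - A ≤ (⨅ p : G.Walk (f x) (f y), (p.edges.map wt).sum) ∧
            (⨅ p : G.Walk (f x) (f y), (p.edges.map wt).sum) ≤ M * dist x y + A) ∧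
          ∀ b : W, ∃ x : X, (⨅ p : G.Walk (f x) b, (p.edges.map wt).sum) ≤ A)
     ↔
     ∀ (V : Type) [Fintype V] (Δ : SimpleGraph V),
       (Nonempty (SimpleGraph.Iso Δ (⊤ : SimpleGraph (Fin 5))) ∨
          Nonempty (SimpleGraph.Iso Δ (completeBipartiteGraph (Fin 3) (Fin 3)))) →
       ¬ ∀ K : ℝ, 0 < K → ∃ (B : V → Set X) (P : V → V → Set X),
           (∀ v, IsConnected (B v)) ∧
           (∀ v v', v ≠ v' → Disjoint (B v) (B v')) ∧
           (∀ u w, Δ.Adj u w → P u w = P w u ∧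
              ∃ g : unitInterval → X, Continuous g ∧ Function.Injective g ∧
                Set.range g = P u w ∧ g 0 ∈ B u ∧ g 1 ∈ B w ∧
                P u w ∩ (⋃ v, B v) = {g 0, g 1}) ∧
           (∀ u w u' w', Δ.Adj u w → Δ.Adj u' w' → s(u, w) ≠ s(u', w') →
              Disjoint (P u w) (P u' w') ∧ ∀ y ∈ P u w, ∀ z ∈ P u' w', K ≤ dist y z) ∧
           (∀ v v', v ≠ v' → ∀ y ∈ B v, ∀ z ∈ B v', K ≤ dist y z) ∧
           (∀ u w v, Δ.Adj u w → v ≠ u → v ≠ w →
              ∀ y ∈ P u w, ∀ z ∈ B v, K ≤ dist y z))) := by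
  intro H
  have hH := H Pool.Agent.L7h97.HgS.Hg Pool.Agent.L7h97.HgS.length_space
  have hlhs := hH.mpr (by
    intro V _ D hD hK
    obtain ⟨B, P, hB, hBB, hP, hPP, -, hPB⟩ := hK 1 one_pos
    refine Pool.Agent.L7h97.HgS.no_minor D ?_ B P hB hBB hP
      (fun u w u' w' h h' hne => (hPP u w u' w' h h' hne).1) ?_
    · rcases hD with ⟨⟨e⟩⟩ | ⟨⟨e⟩⟩
      · exact Pool.Agent.L7h97.HgS.Q_iso e Pool.Agent.L7h97.HgS.Q_five
      · exact Pool.Agent.L7h97.HgS.Q_iso e Pool.Agent.L7h97.HgS.Q_bip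
    · intro u w v huw h1 h2
      rw [Set.disjoint_left]
      intro y hy hz
      have := hPB u w v huw h1 h2 y hy y hz
      rw [_root_.dist_self] at this
      exact absurd this (by norm_num))
  obtain ⟨W, G, wt, -, hwt, ⟨φ, -, hφ, -, -⟩, f, M, A, hM, hA, hf, -⟩ := hlhs
  -- points of the plane for all the spines
  have hMA : 0 ≤ M * A := mul_nonneg (by linarith) hA
  let p : Pool.Agent.L7h97.HgS.I → Pool.Agent.L7h97.HgS.Hg := fun i =>
    ⟨i, M * A + 1, by linarith, fun h => by exfalso; linarith⟩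
  refine Function.cantor_injective (fun i : Set (ℝ × ℝ) => φ (f (p i))) ?_
  intro i j hij
  have h1 : f (p i) = f (p j) := hφ hij
  by_contra hne
  have h2 : dist (p i) (p j) = M * A + 1 + (M * A + 1) :=
    Pool.Agent.L7h97.HgS.dist_ne (x := p i) (y := p j) hne
  have h3 := (hf (p i) (p j)).1
  rw [← h1, h2] at h3
  have h4 : (⨅ q : G.Walk (f (p i)) (f (p i)), (q.edges.map wt).sum) ≤ 0 := by
    refine (ciInf_le ⟨0, ?_⟩ (SimpleGraph.Walk.nil : G.Walk (f (p i)) (f (p i)))).trans ?_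
    · rintro _ ⟨q, rfl⟩
      refine List.sum_nonneg fun x hx => ?_
      obtain ⟨e, he, rfl⟩ := List.mem_map.mp hx
      exact (hwt e (q.edges_subset_edgeSet he)).1.le
    · simp
  have h5 : M⁻¹ * (M * A + 1 + (M * A + 1)) ≤ A := by linarith
  have hM0 : (0 : ℝ) < M := by linarith
  have h6 : M * (M⁻¹ * (M * A + 1 + (M * A + 1))) ≤ M * A := mul_le_mul_of_nonneg_left h5 hM0.le
  rw [← mul_assoc, mul_inv_cancel₀ hM0.ne', one_mul] at h6
  linarith

end Pool.Agent.S12152
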