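import Pool.Statements.S13092
import Pool.Agent.L7h78.NoUnit

set_option autoImplicit false
open LaurentPolynomial
open scoped Matrix
open Pool Pool.MP_436001_gt

namespace Pool.Agent.S13092

open Pool.Agent.L7h78 Pool.Agent.L7h78.LP Pool.Agent.L7h78.NoUnit

/-- the index map -/
def idx : Fin 2 ⊕ Fin 2 × Fin 1 → Fin 4 := Sum.elim ![0, 1] (fun p => ![2, 3] p.1)

theorem idx_bij : Function.Bijective idx := by decide

/-- the index bijection -/
noncomputable def eqv : Fin 2 ⊕ Fin 2 × Fin 1 ≃ Fin 4 := Equiv.ofBijective idx idx_bij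

/-- the involution -/
noncomputable def sg : R →+* R := (invert : R ≃ₐ[ℤ] R).toRingEquiv.toRingHom

theorem sg_T : sg (T 1) = T (-1) := by simp [sg]

theorem sg_apply (x : R) : sg x = invert x := rfl

/-- the form of rank two -/
noncomputable def Lm : Matrix (Fin 2) (Fin 2) R := !![A, B; B', D]

theorem ev_eps (ε : R →+* ℤ) (hε : ε (T 1) = 1) (s : ℤ) (l : List ℤ) : ε (ev s l) = l.sum := by
  have hT : ∀ n : ℤ, ε (T n) = 1 := by
    have hinv : ∀ n : ℕ, ε (T (n : ℤ)) = 1 := by
      intro n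
      induction n with
      | zero => simp
      | succ n ih => rw [Nat.cast_succ, T_add, map_mul, ih, hε, mul_one]
    intro n
    rcases Int.eq_nat_or_neg n with ⟨m, rfl | rfl⟩
    · exact hinv m
    · have h1 : ε (T (-(m : ℤ))) * ε (T (m : ℤ)) = 1 := by
        rw [← map_mul, ← T_add]; simp
      rw [hinv, mul_one] at h1
      exact h1
  induction l generalizing s with
  | nil => simp [ev]
  | cons a l ih =>
    simp only [ev, map_add, map_mul, hT, ih, List.sum_cons, mul_one]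
    congr 1
    simp

theorem star_M : ((mat Data.M).map sg).transpose = mat Data.M := by
  rw [← mat_star sg sg_T]
  exact mat_eq (by decide +kernel)

theorem herm : (Lm.map sg)ᵀ = Lm := by
  refine Matrix.ext fun i j => ?_
  have h := fun i j => congrFun (congrFun star_M i) j
  fin_cases i <;> fin_cases j
  · exact h 0 0
  · exact h 0 1
  · exact h 1 0
  · exact h 1 1

theorem det_L : Lm.det = 1 := by
  have h : Lp.eqb (((Data.M 0 0).mul (Data.M 1 1)).add ((Data.M 0 1).mul (Data.M 1 0)).neg)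
      ⟨0, [1]⟩ = true := by decide +kernel
  have := Lp.val_eq h
  simp only [Lp.val_add, Lp.val_mul, Lp.val_neg, ← sub_eq_add_neg] at this
  have h1 : (Lp.val ⟨0, [1]⟩ : R) = 1 := by simp [Lp.val, ev]
  rw [Lm, Matrix.det_fin_two_of]
  exact this.trans h1

theorem mat_I : mat Data.I = 1 := by
  refine Matrix.ext fun i j => ?_
  fin_cases i <;> fin_cases j <;> simp [mat, Data.I, Lp.val, ev]

theorem sub_mul (X Y : Matrix (Fin 4) (Fin 4) R) :
    X.submatrix eqv eqv * Y.submatrix eqv eqv = (X * Y).submatrix eqv eqv :=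
  Matrix.submatrix_mul_equiv _ _ _ _ _

theorem blocks (H2 : Matrix (Fin 2) (Fin 2) R) (h : H2 = !![0, T 1 - 1; T (-1) - 1, 0])
    (N : Matrix (Fin 2) (Fin 2) R) (X : Fin 4 → Fin 4 → Lp)
    (h00 : (X 0 0).val = N 0 0) (h01 : (X 0 1).val = N 0 1) (h10 : (X 1 0).val = N 1 0)
    (h11 : (X 1 1).val = N 1 1) (h02 : X 0 2 = ⟨0, []⟩) (h03 : X 0 3 = ⟨0, []⟩)
    (h12 : X 1 2 = ⟨0, []⟩) (h13 : X 1 3 = ⟨0, []⟩) (h20 : X 2 0 = ⟨0, []⟩)
    (h21 : X 2 1 = ⟨0, []⟩) (h30 : X 3 0 = ⟨0, []⟩) (h31 : X 3 1 = ⟨0, []⟩)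
    (h22 : X 2 2 = ⟨0, []⟩) (h33 : X 3 3 = ⟨0, []⟩)
    (h23 : X 2 3 = ⟨0, [-1, 1]⟩) (h32 : X 3 2 = ⟨-1, [1, -1]⟩) :
    Matrix.fromBlocks N 0 0 (Matrix.blockDiagonal (fun _ : Fin 1 => H2))
      = (mat X).submatrix eqv eqv := by
  have h0 : (Lp.val ⟨0, []⟩ : R) = 0 := by simp [Lp.val, ev]
  have hp : (Lp.val ⟨0, [-1, 1]⟩ : R) = T 1 - 1 := by
    simp [Lp.val, ev]; ring
  have hm : (Lp.val ⟨-1, [1, -1]⟩ : R) = T (-1) - 1 := by
    simp [Lp.val, ev]; ring
  subst h
  refine Matrix.ext fun i j => ?_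
  rcases i with i | ⟨i, k⟩ <;> rcases j with j | ⟨j, l⟩
  · fin_cases i <;> fin_cases j
    · exact h00.symm
    · exact h01.symm
    · exact h10.symm
    · exact h11.symm
  · fin_cases i <;> fin_cases j <;> fin_cases l
    · exact (by rw [h02, h0] : (X 0 2).val = 0).symm
    · exact (by rw [h03, h0] : (X 0 3).val = 0).symm
    · exact (by rw [h12, h0] : (X 1 2).val = 0).symm
    · exact (by rw [h13, h0] : (X 1 3).val = 0).symm
  · fin_cases i <;> fin_cases j <;> fin_cases k
    · exact (by rw [h20, h0] : (X 2 0).val = 0).symm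
    · exact (by rw [h21, h0] : (X 2 1).val = 0).symm
    · exact (by rw [h30, h0] : (X 3 0).val = 0).symm
    · exact (by rw [h31, h0] : (X 3 1).val = 0).symm
  · fin_cases i <;> fin_cases j <;> fin_cases k <;> fin_cases l
    · exact (by rw [h22, h0] : (X 2 2).val = 0).symm
    · exact (by rw [h23, hp] : (X 2 3).val = T 1 - 1).symm
    · exact (by rw [h32, hm] : (X 3 2).val = T (-1) - 1).symm
    · exact (by rw [h33, h0] : (X 3 3).val = 0).symm

/-- The negation of the preceding statement: Suppose a nondegenerate Hermitian Laurent-polynomial form L has boundary linking form isometric to that of H2^g, L at t=1 equals Q plus 2g zeros, and L plus n H2's ≅ Q plus (g+n) H2's. Then L ≅ Q ⊕ H2^g. -/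
theorem result :
    ¬ (∀ (σ : LaurentPolynomial ℤ →+* LaurentPolynomial ℤ) (ε : LaurentPolynomial ℤ →+* ℤ),
      σ (T 1) = T (-1) → ε (T 1) = 1 →
      ∀ (H2 : Matrix (Fin 2) (Fin 2) (LaurentPolynomial ℤ)),
        H2 = !![0, T 1 - 1; T (-1) - 1, 0] →
      ∀ (k : ℕ) (Q : Matrix (Fin k) (Fin k) ℤ), Qᵀ = Q → IsUnit Q.det →
      ∀ (g r : ℕ) (L : Matrix (Fin r) (Fin r) (LaurentPolynomial ℤ)),
        (L.map σ)ᵀ = L → L.det ≠ 0 →
        (∃ (P Q1 : Matrix (Fin 2 × Fin g) (Fin r) (LaurentPolynomial ℤ))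
            (P' Q2 : Matrix (Fin r) (Fin 2 × Fin g) (LaurentPolynomial ℤ))
            (S1 M : Matrix (Fin r) (Fin r) (LaurentPolynomial ℤ))
            (S2 : Matrix (Fin 2 × Fin g) (Fin 2 × Fin g) (LaurentPolynomial ℤ)),
            P * L = Matrix.blockDiagonal (fun _ : Fin g => H2) * Q1 ∧
            P' * Matrix.blockDiagonal (fun _ : Fin g => H2) = L * Q2 ∧
            P' * P = 1 + L * S1 ∧
            P * P' = 1 + Matrix.blockDiagonal (fun _ : Fin g => H2) * S2 ∧
            (L.map (algebraMap (LaurentPolynomial ℤ) (FractionRing (LaurentPolynomial ℤ))))⁻¹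
              - ((P.map σ)ᵀ).map (algebraMap (LaurentPolynomial ℤ) (FractionRing (LaurentPolynomial ℤ)))
                * ((Matrix.blockDiagonal (fun _ : Fin g => H2)).map
                    (algebraMap (LaurentPolynomial ℤ) (FractionRing (LaurentPolynomial ℤ))))⁻¹
                * P.map (algebraMap (LaurentPolynomial ℤ) (FractionRing (LaurentPolynomial ℤ)))
              = M.map (algebraMap (LaurentPolynomial ℤ) (FractionRing (LaurentPolynomial ℤ)))) →
        (∃ (P : Matrix (Fin r) (Fin k ⊕ Fin 2 × Fin g) ℤ)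
            (P' : Matrix (Fin k ⊕ Fin 2 × Fin g) (Fin r) ℤ),
            P * P' = 1 ∧ P' * P = 1 ∧
            Pᵀ * L.map ε * P = Matrix.fromBlocks Q 0 0 0) →
        (∃ (n : ℕ) (P : Matrix (Fin r ⊕ Fin 2 × Fin n) (Fin k ⊕ Fin 2 × Fin (g + n)) (LaurentPolynomial ℤ))
            (P' : Matrix (Fin k ⊕ Fin 2 × Fin (g + n)) (Fin r ⊕ Fin 2 × Fin n) (LaurentPolynomial ℤ)),
            P * P' = 1 ∧ P' * P = 1 ∧
            (P.map σ)ᵀ * Matrix.fromBlocks L 0 0 (Matrix.blockDiagonal (fun _ : Fin n => H2)) * P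
              = Matrix.fromBlocks (Q.map (Int.castRingHom (LaurentPolynomial ℤ))) 0 0
                  (Matrix.blockDiagonal (fun _ : Fin (g + n) => H2))) →
        ∃ (P : Matrix (Fin r) (Fin k ⊕ Fin 2 × Fin g) (LaurentPolynomial ℤ))
          (P' : Matrix (Fin k ⊕ Fin 2 × Fin g) (Fin r) (LaurentPolynomial ℤ)),
          P * P' = 1 ∧ P' * P = 1 ∧
          (P.map σ)ᵀ * L * P
            = Matrix.fromBlocks (Q.map (Int.castRingHom (LaurentPolynomial ℤ))) 0 0
                (Matrix.blockDiagonal (fun _ : Fin g => H2))) := by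
  intro H
  have hε : (LaurentPolynomial.eval₂ (RingHom.id ℤ) 1 : R →+* ℤ) (T 1) = 1 := by
    simp
  have hLinv : Lm * Lm⁻¹ = 1 := Matrix.mul_nonsing_inv _ (by rw [det_L]; exact isUnit_one)
  have hfin := H sg (LaurentPolynomial.eval₂ (RingHom.id ℤ) 1) sg_T hε
    !![0, T 1 - 1; T (-1) - 1, 0] rfl 2 1 (by simp) (by simp) 0 2 Lm herm
    (by rw [det_L]; exact one_ne_zero) ?_ ?_ ?_
  · -- no isometry
    obtain ⟨P, P', -, -, hP⟩ := hfin
    have h1 := congrFun (congrFun hP (Sum.inl 0)) (Sum.inl 0)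
    simp only [Matrix.mul_apply, Matrix.transpose_apply, Matrix.map_apply, Fin.sum_univ_two,
      Matrix.fromBlocks_apply₁₁, Lm, Matrix.of_apply, Matrix.cons_val', Matrix.cons_val_zero,
      Matrix.cons_val_one, Matrix.cons_val_fin_one, Matrix.one_apply_eq, map_one, sg_apply] at h1
    refine no_unit (P 0 (Sum.inl 0)) (P 1 (Sum.inl 0)) ?_
    rw [← h1]; ring
  · -- condition (i)
    refine ⟨0, 0, 0, 0, -Lm⁻¹, Lm⁻¹, 0, ?_, ?_, ?_, ?_, ?_⟩
    · simp
    · simp
    · rw [Matrix.mul_neg, hLinv]; simp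
    · exact Matrix.ext fun i _ => i.2.elim0
    · have : (Lm.map (algebraMap R (FractionRing R)))⁻¹ = Lm⁻¹.map (algebraMap R (FractionRing R)) := by
        apply Matrix.inv_eq_right_inv
        rw [← Matrix.map_mul, hLinv]
        simp
      rw [this]
      simp
  · -- condition (ii)
    refine ⟨Matrix.of fun i j => Sum.elim (fun j => !![1, 0; 2, 1] i j) (fun p => p.2.elim0) j,
      Matrix.of fun i j => Sum.elim (fun i => !![1, 0; -2, 1] i j) (fun p => p.2.elim0) i, ?_, ?_, ?_⟩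
    · refine Matrix.ext fun i j => ?_
      fin_cases i <;> fin_cases j <;> simp [Matrix.mul_apply, Fintype.sum_sum_type]
    · refine Matrix.ext fun i j => ?_
      rcases i with i | ⟨_, k⟩
      · rcases j with j | ⟨_, k⟩
        · fin_cases i <;> fin_cases j <;> simp [Matrix.mul_apply]
        · exact k.elim0
      · exact k.elim0
    · have e := ev_eps _ hε
      have eA : (LaurentPolynomial.eval₂ (RingHom.id ℤ) 1 : R →+* ℤ) A = 5 := e _ _
      have eB : (LaurentPolynomial.eval₂ (RingHom.id ℤ) 1 : R →+* ℤ) B = -2 := e _ _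
      have eB' : (LaurentPolynomial.eval₂ (RingHom.id ℤ) 1 : R →+* ℤ) B' = -2 := e _ _
      have eD : (LaurentPolynomial.eval₂ (RingHom.id ℤ) 1 : R →+* ℤ) D = 1 := e _ _
      refine Matrix.ext fun i j => ?_
      rcases i with i | ⟨_, k⟩
      · rcases j with j | ⟨_, k⟩
        · fin_cases i <;> fin_cases j <;>
            simp [Matrix.mul_apply, Lm, eA, eB, eB', eD]
        · exact k.elim0
      · exact k.elim0
  · -- condition (iii)
    have hM := blocks _ rfl Lm Data.M rfl rfl rfl rfl rfl rfl rfl rfl rfl rfl rfl rfl rfl rfl rfl rfl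
    have hD := blocks _ rfl ((1 : Matrix (Fin 2) (Fin 2) ℤ).map (Int.castRingHom R)) Data.D
      (by simp [Data.D, Lp.val, ev]) (by simp [Data.D, Lp.val, ev])
      (by simp [Data.D, Lp.val, ev]) (by simp [Data.D, Lp.val, ev])
      rfl rfl rfl rfl rfl rfl rfl rfl rfl rfl rfl rfl
    refine ⟨1, (mat Data.P).submatrix eqv eqv, (mat Data.Pi).submatrix eqv eqv, ?_, ?_, ?_⟩
    · refine (sub_mul _ _).trans ?_
      rw [← mat_mul, mat_eq Data.check1, mat_I]
      exact Matrix.submatrix_one_equiv _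
    · refine (sub_mul _ _).trans ?_
      rw [← mat_mul, mat_eq Data.check2, mat_I]
      exact Matrix.submatrix_one_equiv _
    · rw [hM]
      refine Eq.trans ?_ hD.symm
      have h3 : (((mat Data.P).submatrix eqv eqv).map sg).transpose
          = (mat (starM Data.P)).submatrix eqv eqv := by
        rw [mat_star sg sg_T]; rfl
      refine (congrArg (fun Z => Z * (mat Data.M).submatrix eqv eqv
        * (mat Data.P).submatrix eqv eqv) h3).trans ?_
      rw [sub_mul, sub_mul, ← mat_mul, ← mat_mul, mat_eq Data.check3]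

end Pool.Agent.S13092
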