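import Pool.Statements.S13210
import Pool.Agent.K7.H39.Cube.Lower

/-!
The counterexample is the unit cube `Q`: `ρ₃(Q) = π / 6` and `ρ₂(Q | u^⊥) ≥ π / 5.5` for all `u`.
-/

set_option autoImplicit false
open MeasureTheory
open scoped Pointwise
open Pool Pool.MP_598757_gt

namespace Pool.Agent.S13210

open Pool.Agent.K7.H39.Cube Metric Filter Topology in
theorem limit_of_seq {f : ℝ → ℝ} {L M : ℝ} (hL : Tendsto f (𝓝[>] 0) (𝓝 L))
    (hM : Tendsto (fun n : ℕ => f (1 / ((n : ℝ) + 1))) atTop (𝓝 M)) : L = M := by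
  have h1 : Tendsto (fun n : ℕ => 1 / ((n : ℝ) + 1)) atTop (𝓝[>] 0) := by
    rw [tendsto_nhdsWithin_iff]
    refine ⟨tendsto_one_div_add_atTop_nhds_zero_nat, Eventually.of_forall fun n => ?_⟩
    show (0 : ℝ) < 1 / ((n : ℝ) + 1)
    positivity
  exact tendsto_nhds_unique (hL.comp h1) hM

/-- The negation of the preceding statement: For every convex body K in 3-space and real c: if every orthogonal plane projection has isoperimetric ratio π·area/V₁² at least c, then 9π·vol(K)²/(2·V₂(K)³) is at least c (V₁, V₂ given via Steiner-formula limits). -/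
theorem result :
    ¬ (∀ (K : Set (EuclideanSpace ℝ (Fin 3))) (c : ℝ),
    IsCompact K → Convex ℝ K → (interior K).Nonempty →
    (∀ u ∈ Metric.sphere (0 : EuclideanSpace ℝ (Fin 3)) 1, ∀ L : ℝ,
      Filter.Tendsto (fun t : ℝ =>
        ((volume ((fun x : EuclideanSpace ℝ (Fin 3) => x - (inner ℝ u x) • u) '' K
              + Metric.closedBall (0 : EuclideanSpace ℝ (Fin 3)) t)).toReal
          - 2 * t * ((volume (K + segment ℝ (0 : EuclideanSpace ℝ (Fin 3)) u)).toReal
              - (volume K).toReal)) / (Real.pi * t ^ 2))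
        (nhdsWithin 0 (Set.Ioi 0)) (nhds L) →
      c ≤ Real.pi * ((volume (K + segment ℝ (0 : EuclideanSpace ℝ (Fin 3)) u)).toReal
              - (volume K).toReal) / L ^ 2) →
    ∀ S : ℝ,
      Filter.Tendsto (fun t : ℝ =>
        ((volume (K + Metric.closedBall (0 : EuclideanSpace ℝ (Fin 3)) t)).toReal
          - (volume K).toReal) / (2 * t))
        (nhdsWithin 0 (Set.Ioi 0)) (nhds S) →
      c ≤ 9 * Real.pi * (volume K).toReal ^ 2 / (2 * S ^ 3)) := by
  intro H
  have hpi := Real.pi_pos
  have hQi : (interior K7.H39.Cube.Q).Nonempty := by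
    by_contra hcon
    rw [Set.not_nonempty_iff_eq_empty] at hcon
    have h1 := (K7.H39.Cube.Q_convex).addHaar_frontier (volume : Measure (EuclideanSpace ℝ (Fin 3)))
    have h2 : volume K7.H39.Cube.Q = 0 := by
      refine le_antisymm (le_trans (measure_mono ?_) h1.le) bot_le
      intro x hx
      rw [frontier, hcon]
      exact ⟨subset_closure hx, by simp⟩
    have h3 := K7.H39.Cube.vol_Q
    unfold K7.H39.Cube.vol at h3
    rw [h2] at h3
    simp at h3
  have h := H K7.H39.Cube.Q (Real.pi / 5.5) K7.H39.Cube.Q_compact K7.H39.Cube.Q_convex hQi ?_ 3 ?_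
  · have h3 : (volume K7.H39.Cube.Q).toReal = 1 := K7.H39.Cube.vol_Q
    rw [h3] at h
    norm_num at h
    nlinarith
  · intro u hu L hL
    have hu1 : ‖u‖ = 1 := by simpa using hu
    have hseg : (volume (K7.H39.Cube.Q + segment ℝ (0 : EuclideanSpace ℝ (Fin 3)) u)).toReal
        - (volume K7.H39.Cube.Q).toReal = K7.H39.Cube.G K7.H39.Cube.Q u := by
      unfold K7.H39.Cube.G K7.H39.Cube.vol
      rw [K7.H39.Cube.Sg_zero_one]
    rw [hseg] at hL ⊢
    set m := K7.H39.Cube.G K7.H39.Cube.Q u with hm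
    set s : ℝ := ‖K7.H39.Cube.P u (EuclideanSpace.single 0 1)‖ +
             ‖K7.H39.Cube.P u (EuclideanSpace.single 1 1)‖ +
             ‖K7.H39.Cube.P u (EuclideanSpace.single 2 1)‖ with hs
    have hLs : L = s := by
      refine limit_of_seq hL ?_
      have hP : (fun x : EuclideanSpace ℝ (Fin 3) => x - (inner ℝ u x) • u) =
          fun x => K7.H39.Cube.P u x := by
        funext x; rw [K7.H39.Cube.P_apply]
      rw [hP]
      have e : ∀ n : ℕ, ((volume ((fun x => K7.H39.Cube.P u x) '' K7.H39.Cube.Q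
              + Metric.closedBall (0 : EuclideanSpace ℝ (Fin 3)) (1 / ((n : ℝ) + 1)))).toReal
            - 2 * (1 / ((n : ℝ) + 1)) * m) / (Real.pi * (1 / ((n : ℝ) + 1)) ^ 2) =
            s + (K7.H39.Cube.ka 3 / Real.pi) * (1 / ((n : ℝ) + 1)) := by
        intro n
        have h1 := K7.H39.Cube.vol_proj_add_ball hu1 (n + 1) (Nat.succ_pos n)
        push_cast at h1
        have h2 : (volume ((fun x => K7.H39.Cube.P u x) '' K7.H39.Cube.Q
              + Metric.closedBall (0 : EuclideanSpace ℝ (Fin 3)) (1 / ((n : ℝ) + 1)))).toReal =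
            K7.H39.Cube.vol (K7.H39.Cube.P u '' K7.H39.Cube.Q +
              Metric.closedBall 0 (1 / ((n : ℝ) + 1))) := rfl
        rw [h2, h1, ← hm, ← hs]
        have hn : (n : ℝ) + 1 ≠ 0 := by positivity
        field_simp
        ring
      simp_rw [e]
      have h0 : Filter.Tendsto (fun n : ℕ => 1 / ((n : ℝ) + 1)) Filter.atTop (nhds 0) :=
        tendsto_one_div_add_atTop_nhds_zero_nat
      simpa using (h0.const_mul (K7.H39.Cube.ka 3 / Real.pi)).const_add s
    obtain ⟨g1, g2, g3⟩ := K7.H39.Cube.G_ge (u := u)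
    have hsum : |u 0| ^ 2 + |u 1| ^ 2 + |u 2| ^ 2 = 1 := by
      have := EuclideanSpace.real_norm_sq_eq u
      rw [hu1, Fin.sum_univ_three] at this
      simp only [sq_abs]
      linarith
    have key := K7.H39.Cube.ineq (abs_nonneg (u 0)) (abs_nonneg (u 1)) (abs_nonneg (u 2))
      (norm_nonneg (K7.H39.Cube.P u (EuclideanSpace.single 0 1)))
      (norm_nonneg (K7.H39.Cube.P u (EuclideanSpace.single 1 1)))
      (norm_nonneg (K7.H39.Cube.P u (EuclideanSpace.single 2 1))) hsum
      (by rw [K7.H39.Cube.norm_P_single hu1, sq_abs]) (by rw [K7.H39.Cube.norm_P_single hu1, sq_abs])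
      (by rw [K7.H39.Cube.norm_P_single hu1, sq_abs]) g1 g2 g3
    rw [← hs, ← hm] at key
    rw [hLs]
    have hm0 : 0 < m := by
      have : 0 ≤ |u 0| := abs_nonneg _
      have : 0 ≤ |u 1| := abs_nonneg _
      have : 0 ≤ |u 2| := abs_nonneg _
      by_contra hcon
      push Not at hcon
      have e0 : |u 0| = 0 := by linarith
      have e1 : |u 1| = 0 := by linarith
      have e2 : |u 2| = 0 := by linarith
      rw [e0, e1, e2] at hsum
      norm_num at hsum
    have hs0 : 0 < s := by
      by_contra hcon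
      push Not at hcon
      have a0 := norm_nonneg (K7.H39.Cube.P u (EuclideanSpace.single 0 1))
      have a1 := norm_nonneg (K7.H39.Cube.P u (EuclideanSpace.single 1 1))
      have a2 := norm_nonneg (K7.H39.Cube.P u (EuclideanSpace.single 2 1))
      have e0 : ‖K7.H39.Cube.P u (EuclideanSpace.single 0 1)‖ = 0 := by linarith
      have e1 : ‖K7.H39.Cube.P u (EuclideanSpace.single 1 1)‖ = 0 := by linarith
      have e2 : ‖K7.H39.Cube.P u (EuclideanSpace.single 2 1)‖ = 0 := by linarith
      have b0 := K7.H39.Cube.norm_P_single hu1 0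
      have b1 := K7.H39.Cube.norm_P_single hu1 1
      have b2 := K7.H39.Cube.norm_P_single hu1 2
      rw [e0] at b0
      rw [e1] at b1
      rw [e2] at b2
      simp only [sq_abs] at hsum
      linarith
    rw [div_le_div_iff₀ (by norm_num) (by positivity)]
    nlinarith
  · have e : ∀ t : ℝ, 0 < t → ((volume (K7.H39.Cube.Q +
        Metric.closedBall (0 : EuclideanSpace ℝ (Fin 3)) t)).toReal
          - (volume K7.H39.Cube.Q).toReal) / (2 * t) =
          3 + 3 * Real.pi / 2 * t + K7.H39.Cube.ka 3 / 2 * t ^ 2 := by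
      intro t ht
      have h1 : (volume (K7.H39.Cube.Q +
        Metric.closedBall (0 : EuclideanSpace ℝ (Fin 3)) t)).toReal = _ :=
        K7.H39.Cube.vol_Q_add_ball ht.le
      have h2 : (volume K7.H39.Cube.Q).toReal = 1 := K7.H39.Cube.vol_Q
      rw [h1, h2]
      field_simp
      ring
    have hc : Filter.Tendsto (fun t : ℝ => 3 + 3 * Real.pi / 2 * t + K7.H39.Cube.ka 3 / 2 * t ^ 2)
        (nhdsWithin 0 (Set.Ioi 0)) (nhds 3) := by
      have h : Continuous fun t : ℝ => 3 + 3 * Real.pi / 2 * t + K7.H39.Cube.ka 3 / 2 * t ^ 2 := by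
        fun_prop
      have h' := h.tendsto 0
      simp only [mul_zero, ne_eq, OfNat.ofNat_ne_zero, not_false_eq_true, zero_pow, add_zero] at h'
      exact h'.mono_left nhdsWithin_le_nhds
    refine hc.congr' ?_
    filter_upwards [self_mem_nhdsWithin] with t ht
    exact (e t ht).symm

end Pool.Agent.S13210
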