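import Pool.Statements.S13710
import Pool.Agent.L7h78.HW

set_option autoImplicit false
open Pool Pool.MP_a6a8af_gt

namespace Pool.Agent.S13710

/-- The negation of the preceding statement: If X is a locally connected metric continuum that is a union of two subcontinua with disconnected intersection, and f is a local homeomorphism of X onto a metric space Y, then Y is also such a union. -/
theorem result :
    ¬ (∀ (X Y : Type) [MetricSpace X] [CompactSpace X] [ConnectedSpace X]
      [LocallyConnectedSpace X] [MetricSpace Y] (f : X → Y),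
      IsLocalHomeomorph f → Function.Surjective f →
      (∃ A B : Set X, IsClosed A ∧ IsClosed B ∧ IsConnected A ∧ IsConnected B ∧
          A ∪ B = Set.univ ∧ ¬ IsConnected (A ∩ B)) →
      (∃ A B : Set Y, IsClosed A ∧ IsClosed B ∧ IsConnected A ∧ IsConnected B ∧
          A ∪ B = Set.univ ∧ ¬ IsConnected (A ∩ B))) := by
  intro H
  letI : MetricSpace Pool.Agent.L7h78.HW.Y := TopologicalSpace.metrizableSpaceMetric _
  obtain ⟨A, B, hA, hB, hAc, hBc, hAB, hn⟩ :=
    H Pool.Agent.L7h78.HW.X Pool.Agent.L7h78.HW.Y Pool.Agent.L7h78.HW.f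
      Pool.Agent.L7h78.HW.isLocalHomeomorph_f Pool.Agent.L7h78.HW.surj
      ⟨Pool.Agent.L7h78.HW.HA, Pool.Agent.L7h78.HW.HB, Pool.Agent.L7h78.HW.isClosed_HA,
        Pool.Agent.L7h78.HW.isClosed_HB, Pool.Agent.L7h78.HW.isConnected_HA,
        Pool.Agent.L7h78.HW.isConnected_HB, Pool.Agent.L7h78.HW.union,
        Pool.Agent.L7h78.HW.not_inter⟩
  haveI : PreconnectedSpace Pool.Agent.L7h78.HW.Y :=
    Pool.Agent.L7h78.HW.surj.denseRange.preconnectedSpace
      Pool.Agent.L7h78.HW.cov.isCoveringMap.continuous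
  refine hn ⟨?_, ?_⟩
  · have h1 := (isPreconnected_closed_iff.mp (isPreconnected_univ
      (α := Pool.Agent.L7h78.HW.Y))) A B hA hB hAB.symm.subset
    obtain ⟨x, hx⟩ := hAc.nonempty
    obtain ⟨y, hy⟩ := hBc.nonempty
    obtain ⟨z, -, hz⟩ := h1 ⟨x, Set.mem_univ _, hx⟩ ⟨y, Set.mem_univ _, hy⟩
    exact ⟨z, hz⟩
  · exact Pool.Agent.L7h78.Unicoh.unicoherent_of_lift
      (fun g hg => Pool.Agent.L7h78.HW.lift g hg) hA hB hAc.isPreconnected hBc.isPreconnected hAB

end Pool.Agent.S13710
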