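import Pool.Statements.S17091
-- import your own Pool.Agent.* helpers here
import Pool.Agent.L7h22.D8.Fin4

set_option autoImplicit false
open Pool Pool.MP_5bfa61_nt

namespace Pool.Agent.S17091

/-- For every odd prime p, with S = sum over k<p of C(2k,k)^2 C(3k,k)/8^k: if (-2/p)=1 and p=x^2+2y^2, p^2 divides the numerator of S-(4x^2-2p); if (-2/p)=-1, p^2 divides the numerator of S. -/
theorem result :
    ∀ (p : ℕ) [Fact p.Prime], p ≠ 2 →
      ((legendreSym p (-2) = 1 →
          ∀ x y : ℤ, (p : ℤ) = x ^ 2 + 2 * y ^ 2 →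
            (p : ℤ) ^ 2 ∣
              ((∑ k ∈ Finset.range p,
                  ((Nat.choose (2 * k) k : ℚ) ^ 2 * (Nat.choose (3 * k) k : ℚ)) / (8 : ℚ) ^ k)
                - (((4 * x ^ 2 - 2 * (p : ℤ)) : ℤ) : ℚ)).num) ∧
       (legendreSym p (-2) = -1 →
            (p : ℤ) ^ 2 ∣
              (∑ k ∈ Finset.range p,
                  ((Nat.choose (2 * k) k : ℚ) ^ 2 * (Nat.choose (3 * k) k : ℚ)) / (8 : ℚ) ^ k).num)) := by
  intro p hpf h2
  have hp := hpf.out
  have hodd : p % 2 = 1 := Nat.odd_iff.1 (hp.odd_of_ne_two h2)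
  have hleg := legendreSym.at_neg_two h2
  rw [ZMod.χ₈'_nat_eq_if_mod_eight, if_neg (by omega)] at hleg
  constructor
  · intro h1 x y hxy
    have hmod : p % 8 = 1 ∨ p % 8 = 3 := by
      by_contra hc
      rw [if_neg hc, h1] at hleg
      norm_num at hleg
    apply Pool.Agent.K1H59.SC.num_of_I (k := 2)
    have hxodd : x % 2 = 1 := by
      rcases Int.emod_two_eq_zero_or_one x with h | h
      · exfalso
        obtain ⟨t, ht⟩ : ∃ t, x = 2 * t := ⟨x / 2, by omega⟩
        rw [ht] at hxy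
        have : (p : ℤ) = 2 * (2 * t ^ 2 + y ^ 2) := by linear_combination hxy
        omega
      · exact h
    by_cases hp3 : p = 3
    · subst hp3
      have hx2 : x ^ 2 = 1 := by
        have hy : y ^ 2 ≤ 1 := by push_cast at hxy; nlinarith [sq_nonneg x]
        have hy' : 0 ≤ y ^ 2 := sq_nonneg y
        have hx' : 0 ≤ x ^ 2 := sq_nonneg x
        push_cast at hxy
        have hy2 : y ^ 2 = 0 ∨ y ^ 2 = 1 := by omega
        rcases hy2 with h | h
        · rw [h] at hxy
          exfalso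
          have h3 : x ^ 2 = 3 := by linarith
          have h4 : x ≤ 1 := by nlinarith
          have h5 : -1 ≤ x := by nlinarith
          have h6 : x = -1 ∨ x = 0 ∨ x = 1 := by omega
          rcases h6 with h | h | h <;> rw [h] at h3 <;> norm_num at h3
        · rw [h] at hxy; linarith
      have hx2q : (x : ℚ) ^ 2 = 1 := by exact_mod_cast hx2
      have h7 := Pool.Agent.L7h22.D8.S_three hx2q
      have e : (((4 * x ^ 2 - 2 * ((3 : ℕ) : ℤ)) : ℤ) : ℚ) = 4 * (x : ℚ) ^ 2 - 2 * ((3 : ℕ) : ℚ) := by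
        push_cast; ring
      rw [e]
      exact h7
    · have hp5 : 5 < p := by
        rcases Nat.lt_or_ge 5 p with h | h
        · exact h
        · exfalso
          have := hp.two_le
          interval_cases p <;> omega
      obtain ⟨r, hr⟩ : ∃ r, p = 8 * r + 1 ∨ p = 8 * r + 3 := ⟨p / 8, by omega⟩
      have key : ∀ x' : ℤ, (p : ℤ) = x' ^ 2 + 2 * y ^ 2 → x' % 4 = 1 → x' ^ 2 = x ^ 2 →
          Pool.Agent.R439.PL.I p 2 ((∑ k ∈ Finset.range p,
                  ((Nat.choose (2 * k) k : ℚ) ^ 2 * (Nat.choose (3 * k) k : ℚ)) / (8 : ℚ) ^ k)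
                - (((4 * x ^ 2 - 2 * (p : ℤ)) : ℤ) : ℚ)) := by
        intro x' h3 h4 h5
        have := Pool.Agent.L7h22.D8.S_final hp5 h3 h4 hr
        have h6 : (x' : ℚ) ^ 2 = (x : ℚ) ^ 2 := by exact_mod_cast h5
        rw [h6] at this
        push_cast
        exact this
      have hx4 : x % 4 = 1 ∨ (-x) % 4 = 1 := by omega
      rcases hx4 with h | h
      · exact key x hxy h rfl
      · exact key (-x) (by rw [neg_sq]; exact hxy) h (neg_sq x)
  · intro h1
    have hmod : p % 8 = 5 ∨ p % 8 = 7 := by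
      by_contra hc
      rw [if_pos (by omega), h1] at hleg
      norm_num at hleg
    apply Pool.Agent.K1H59.SC.num_of_I (k := 2)
    obtain ⟨r, hr⟩ : ∃ r, p = 8 * r + 5 ∨ p = 8 * r + 7 := ⟨p / 8, by omega⟩
    exact Pool.Agent.L7h22.D8.S_ss (by omega) hr

end Pool.Agent.S17091
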